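import Pool.Agent.P8H91.GR.Engine
import Pool.Agent.Y359.LE.Rep

/-!
# Growth at one scale
-/

set_option autoImplicit false

namespace Pool.Agent.P8H91.GR

open Finset Pool.Agent.Y359.LE
open scoped Pointwise

theorem sm_sup (A : Finset ℤ) (m n : ℕ) : sm A m + sm A n ⊆ sm A (m + n) := by
  intro z hz
  obtain ⟨x, hx, y, hy, rfl⟩ := Finset.mem_add.1 hz
  obtain ⟨f, hf, rfl⟩ := mem_image.1 hx
  obtain ⟨g, hg, rfl⟩ := mem_image.1 hy
  rw [Fintype.mem_piFinset] at hf hg
  refine mem_image.2 ⟨Fin.append f g, Fintype.mem_piFinset.2 fun i => ?_, ?_⟩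
  · refine Fin.addCases (fun j => ?_) (fun j => ?_) i
    · rw [Fin.append_left]; exact hf j
    · rw [Fin.append_right]; exact hg j
  · rw [Fin.sum_univ_add]
    simp only [Fin.append_left, Fin.append_right]

theorem const_mem (A : Finset ℤ) (n : ℕ) (a : ℤ) (ha : a ∈ A) : (n : ℤ) * a ∈ sm A n := by
  refine mem_image.2 ⟨fun _ => a, Fintype.mem_piFinset.2 fun _ => ha, ?_⟩
  rw [Finset.sum_const, Finset.card_univ, Fintype.card_fin, nsmul_eq_mul]

theorem sm_one (A : Finset ℤ) : A ⊆ sm A 1 := by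
  intro a ha
  have := const_mem A 1 a ha
  simpa using this

theorem sm_card_mono (A : Finset ℤ) (hA : A.Nonempty) {m n : ℕ} (h : m ≤ n) :
    (sm A m).card ≤ (sm A n).card := by
  obtain ⟨a, ha⟩ := hA
  obtain ⟨k, rfl⟩ := Nat.exists_eq_add_of_le h
  apply Finset.card_le_card_of_injOn (fun x => x + k * a)
  · intro x hx
    exact sm_sup A m k (Finset.add_mem_add hx (const_mem A k a ha))
  · intro x _ y _ hxy
    have : x + k * a = y + k * a := hxy
    linarith

theorem sm_ne (A : Finset ℤ) (hA : A.Nonempty) (n : ℕ) : (sm A n).Nonempty := by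
  obtain ⟨a, ha⟩ := hA
  exact ⟨_, const_mem A n a ha⟩

/-- a slowly growing step -/
theorem slow_sum (A : Finset ℤ) (J : ℕ) (hJ : 1 ≤ J) (Q : ℝ) (hQ : 1 ≤ Q)
    (h : ((sm A (2 ^ J)).card : ℝ) ≤ Q ^ J * A.card) (hA : A.Nonempty) :
    ∃ j < J, ((sm A (2 ^ j + 2 ^ j)).card : ℝ) ≤ Q * (sm A (2 ^ j)).card := by
  by_contra hcon
  push Not at hcon
  have hind : ∀ j ≤ J, Q ^ j * A.card ≤ (sm A (2 ^ j)).card ∧
      (1 ≤ j → Q ^ j * A.card < (sm A (2 ^ j)).card) := by
    intro j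
    induction j with
    | zero =>
      intro _
      refine ⟨?_, fun h => absurd h (by norm_num)⟩
      rw [pow_zero, one_mul, pow_zero]
      exact_mod_cast Finset.card_le_card (sm_one A)
    | succ j ih =>
      intro hj
      have h1 := hcon j (by omega)
      have h2 := (ih (by omega)).1
      have e1 : 2 ^ (j + 1) = 2 ^ j + 2 ^ j := by rw [pow_succ]; ring
      have h3 : Q ^ (j + 1) * A.card < (sm A (2 ^ (j + 1))).card := by
        rw [e1]
        calc Q ^ (j + 1) * A.card = Q * (Q ^ j * A.card) := by ring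
          _ ≤ Q * (sm A (2 ^ j)).card := mul_le_mul_of_nonneg_left h2 (by linarith)
          _ < _ := h1
      exact ⟨h3.le, fun _ => h3⟩
  have h1 := (hind J le_rfl).2 hJ
  linarith

/-- `A` is contained in a set with small doubling. -/
theorem host (A : Finset ℤ) (hA : A.Nonempty) (m : ℕ) (K : ℝ) (hm : 2 ≤ m) (hK : 1 ≤ K)
    (h : ((sm A m).card : ℝ) ≤ K * A.card) :
    ∃ G : Finset ℤ, A ⊆ G ∧ (G.card : ℝ) ≤ K * A.card ∧
      ((G + G).card : ℝ) ≤ qq m K * G.card := by
  classical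
  set J := Nat.log 2 m with hJdef
  have hJ : 1 ≤ J := log_pos_of hm
  have hpow : 2 ^ J ≤ m := Nat.pow_log_le_self 2 (by omega)
  have h1 : ((sm A (2 ^ J)).card : ℝ) ≤ qq m K ^ J * A.card := by
    rw [hJdef, qq_pow hm hK]
    refine le_trans ?_ h
    exact_mod_cast sm_card_mono A hA hpow
  obtain ⟨j, hj, hslow⟩ := slow_sum A J hJ (qq m K) (qq_ge hK) h1 hA
  obtain ⟨n, hn⟩ : ∃ n, 2 ^ j = n + 1 :=
    ⟨2 ^ j - 1, by have := Nat.one_le_two_pow (n := j); omega⟩
  obtain ⟨a, ha⟩ := hA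
  set S := sm A (2 ^ j) with hS
  have hinj : Function.Injective fun x : ℤ => x - n * a := fun x y hxy => by
    have : x - n * a = y - n * a := hxy
    linarith
  refine ⟨S.image fun x => x - n * a, ?_, ?_, ?_⟩
  · intro x hx
    refine mem_image.2 ⟨x + n * a, ?_, by ring⟩
    have h2 := sm_sup A 1 n (Finset.add_mem_add (sm_one A hx) (const_mem A n a ha))
    rw [hS, hn, add_comm n 1]
    exact h2
  · rw [Finset.card_image_of_injective _ hinj]
    refine le_trans ?_ h
    have h2 : 2 ^ j ≤ m := (Nat.pow_le_pow_right (by norm_num) hj.le).trans hpow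
    exact_mod_cast sm_card_mono A ⟨a, ha⟩ h2
  · rw [Finset.card_image_of_injective _ hinj]
    refine le_trans ?_ hslow
    have h2 : (S.image fun x => x - n * a) + (S.image fun x => x - n * a) ⊆
        (sm A (2 ^ j + 2 ^ j)).image fun x => x - 2 * (n * a) := by
      intro z hz
      obtain ⟨x, hx, y, hy, rfl⟩ := Finset.mem_add.1 hz
      obtain ⟨x', hx', rfl⟩ := mem_image.1 hx
      obtain ⟨y', hy', rfl⟩ := mem_image.1 hy
      exact mem_image.2 ⟨x' + y', sm_sup A _ _ (Finset.add_mem_add hx' hy'), by ring⟩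
    exact_mod_cast (Finset.card_le_card h2).trans Finset.card_image_le

/-- Growth at one scale. -/
theorem growth (A : Finset ℤ) (hA : A.Nonempty) (m : ℕ) (K : ℝ) (hm : 2 ≤ m) (hK : 1 ≤ K)
    (h : ((sm A m).card : ℝ) ≤ K * A.card) :
    Cov (600 * gr m K) (K * A.card) (num (cM 2) (gr m K)) A ∧
      Cov (600 * gr m K) A.card (K * num (cM 2) (gr m K)) A := by
  obtain ⟨G, hAG, hG, hGG⟩ := host A hA m K hm hK h
  have hGne : G.Nonempty := hA.mono hAG
  obtain ⟨h1, h2⟩ := engine (B := 2) (L := gr m K) (by norm_num) (gr_ge hm hK) G hGne hGG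
    (log_qq hm hK)
  have e : (300 : ℝ) * 2 * gr m K = 600 * gr m K := by ring
  rw [e] at h1 h2
  exact ⟨h1.mono le_rfl hG le_rfl hAG,
    (h2 A.card K hA.card_pos hK hG).mono le_rfl le_rfl le_rfl hAG⟩

end Pool.Agent.P8H91.GR
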