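import Pool.Agent.P8H91.GR.Inv
import Pool.Agent.P8H91.GR.Grow

/-!
# Sets with small doubling: which sets are covered by progressions of small rank
-/

set_option autoImplicit false

namespace Pool.Agent.P8H91.GR

open Finset Pool.Agent.Y359.LE
open scoped Pointwise

/-- Some `A' ⊆ A` with `|A'| ≥ |A| / R` has `|m A'| ≤ R |A'|`. -/
def Slow (m : ℕ) (R : ℝ) (A : Finset ℤ) : Prop :=
  ∃ A' ⊆ A, (A.card : ℝ) ≤ R * A'.card ∧ ((sm A' m).card : ℝ) ≤ R * A'.card

/-- Some `A' ⊆ A` with `|A'| ≥ |A| / R` has `E_m(A') ≥ |A'| ^ (2 m - 1) / R`. -/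
def Rich (m : ℕ) (R : ℝ) (A : Finset ℤ) : Prop :=
  ∃ A' ⊆ A, (A.card : ℝ) ≤ R * A'.card ∧ (A'.card : ℝ) ^ (2 * m - 1) ≤ R * En A' m

/-- Cauchy-Schwarz -/
theorem rich_of_slow {m : ℕ} {R : ℝ} {A : Finset ℤ} (hA : A.Nonempty) (hm : 1 ≤ m)
    (h : Slow m R A) : Rich m R A := by
  obtain ⟨A', hA', h1, h2⟩ := h
  refine ⟨A', hA', h1, ?_⟩
  have hA0 : (0 : ℝ) < A.card := by exact_mod_cast hA.card_pos
  have hA'0 : (0 : ℝ) < A'.card := by
    rcases (Nat.cast_nonneg A'.card : (0 : ℝ) ≤ A'.card).lt_or_eq with h3 | h3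
    · exact h3
    · rw [← h3, mul_zero] at h1
      linarith
  have h3 : ((A'.card ^ m : ℕ) : ℝ) ^ 2 ≤ (sm A' m).card * En A' m := by
    have h4 := sq_sum_le_card_mul_sum_sq (s := sm A' m) (f := fun z => ((rep A' m z : ℕ) : ℝ))
    rw [← rep_total A' m _ (Finset.Subset.refl _), En_eq A' m _ (Finset.Subset.refl _)]
    push_cast
    exact h4
  have h4 : A'.card * (A'.card : ℝ) ^ (2 * m - 1) ≤ A'.card * (R * En A' m) := by
    calc A'.card * (A'.card : ℝ) ^ (2 * m - 1) = (A'.card : ℝ) ^ (2 * m) := by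
          rw [← pow_succ']
          congr 1
          omega
      _ = ((A'.card ^ m : ℕ) : ℝ) ^ 2 := by push_cast; rw [← pow_mul, mul_comm m 2]
      _ ≤ (sm A' m).card * En A' m := h3
      _ ≤ (R * A'.card) * En A' m := mul_le_mul_of_nonneg_right h2 (Nat.cast_nonneg _)
      _ = _ := by ring
  exact le_of_mul_le_mul_left h4 hA'0

theorem dense_sup {A A' : Finset ℤ} {D V M R : ℝ} (hA' : A' ⊆ A) (hR : 0 ≤ R)
    (h1 : (A.card : ℝ) ≤ R * A'.card) (h : Dense D V M A') : Dense D V (R * M) A := by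
  obtain ⟨P, x, S, hP, hS, h2, h3⟩ := h
  refine ⟨P, x, S, hP, hS.trans hA', h2, h1.trans ?_⟩
  rw [mul_assoc]
  exact mul_le_mul_of_nonneg_left h3 hR

lemma nine_pow {D : ℝ} {k : ℕ} (hk : (k : ℝ) ≤ D) : (9 : ℝ) ^ k ≤ Real.exp (3 * D) := by
  have h1 : (9 : ℝ) ≤ Real.exp 3 := by
    have h2 : (2.7 : ℝ) ≤ Real.exp 1 := by
      have := Real.exp_one_gt_d9
      linarith
    have h3 : Real.exp 3 = Real.exp 1 ^ 3 := by
      rw [← Real.exp_nat_mul]; norm_num
    rw [h3]
    calc (9 : ℝ) ≤ 2.7 ^ 3 := by norm_num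
      _ ≤ _ := pow_le_pow_left₀ (by norm_num) h2 3
  calc (9 : ℝ) ^ k ≤ Real.exp 3 ^ k := pow_le_pow_left₀ (by norm_num) h1 k
    _ = Real.exp (k * 3) := by rw [← Real.exp_nat_mul]
    _ ≤ _ := by
        apply Real.exp_le_exp.2
        linarith

/-- Ruzsa's covering lemma and shrinking. -/
theorem cov_of_dense {D V M K : ℝ} (A : Finset ℤ) (hA : A.Nonempty) (hK0 : 0 ≤ K) (hM : 0 ≤ M)
    (hK : ((A + A).card : ℝ) ≤ K * A.card) (hV : 1 ≤ V) (h : Dense D (V * A.card) M A) :
    Cov D A.card (K * M * (V * Real.exp (3 * D))) A := by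
  classical
  obtain ⟨P, x, S, ⟨k, v, Ls, hk, hp, hv, rfl⟩, hSA, hS, hAS⟩ := h
  have hAc : (0 : ℝ) < A.card := by exact_mod_cast hA.card_pos
  have hSne : S.Nonempty := by
    rw [Finset.nonempty_iff_ne_empty]
    rintro rfl
    simp only [card_empty, Nat.cast_zero, mul_zero] at hAS
    linarith
  have h1 : ((A + S).card : ℝ) ≤ (K * M) * S.card := by
    have h2 : ((A + S).card : ℝ) ≤ (A + A).card := by
      exact_mod_cast Finset.card_le_card (Finset.add_subset_add_left hSA)
    calc ((A + S).card : ℝ) ≤ (A + A).card := h2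
      _ ≤ K * A.card := hK
      _ ≤ K * (M * S.card) := mul_le_mul_of_nonneg_left hAS hK0
      _ = _ := by ring
  obtain ⟨F, -, hF, hAF⟩ := Finset.ruzsa_covering_add hSne h1
  obtain ⟨L', hL', hN', S₀, hS₀, hS₀card⟩ :=
    Pool.Agent.N291.SPC.SHRB.t_SHRB k Ls A.card hA.card_pos
  set S' : Finset ℤ := S₀.image fun s => ∑ i, s i * v i with hS'
  refine ⟨_, F + S', ⟨k, v, L', hk, ?_, by exact_mod_cast hN', rfl⟩, ?_, ?_⟩
  · intro a b ha hb hab
    refine hp a b (fun i => (ha i).trans ?_) (fun i => (hb i).trans ?_) hab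
    · exact_mod_cast hL' i
    · exact_mod_cast hL' i
  · have h3 : ((F + S').card : ℝ) ≤ F.card * S₀.card := by
      have h2 : (F + S').card ≤ F.card * S'.card := Finset.card_add_le
      have h3 : S'.card ≤ S₀.card := Finset.card_image_le
      exact_mod_cast h2.trans (Nat.mul_le_mul_left _ h3)
    have h4 : (S₀.card : ℝ) * A.card ≤ 9 ^ k * (V * A.card) := by
      have h5 : (S₀.card : ℝ) * A.card ≤ 9 ^ k * (max (∏ i, (2 * Ls i + 1)) A.card : ℕ) := by
        exact_mod_cast hS₀card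
      refine h5.trans (mul_le_mul_of_nonneg_left ?_ (by positivity))
      rw [Nat.cast_max]
      apply max_le
      · exact_mod_cast hv
      · nlinarith
    have h5 : (S₀.card : ℝ) ≤ V * Real.exp (3 * D) := by
      have h6 : (S₀.card : ℝ) * A.card ≤ (9 ^ k * V) * A.card := by linarith
      refine (le_of_mul_le_mul_right h6 hAc).trans ?_
      rw [mul_comm]
      exact mul_le_mul_of_nonneg_left (nine_pow hk) (by linarith)
    calc ((F + S').card : ℝ) ≤ F.card * S₀.card := h3
      _ ≤ (K * M) * (V * Real.exp (3 * D)) :=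
          mul_le_mul hF h5 (Nat.cast_nonneg _) (by positivity)
  · intro a ha
    obtain ⟨f, hf, y, hy, rfl⟩ := Finset.mem_add.1 (hAF ha)
    obtain ⟨s, hs, s', hs', rfl⟩ := Finset.mem_sub.1 hy
    obtain ⟨-, ⟨c, hc, rfl⟩, e⟩ := hS s hs
    obtain ⟨-, ⟨c', hc', rfl⟩, e'⟩ := hS s' hs'
    obtain ⟨u, hu, z, hz, e2⟩ := hS₀ (c - c') (fun i => by
      have h2 := hc i
      have h3 := hc' i
      rw [Pi.sub_apply]
      calc |c i - c' i| ≤ |c i| + |c' i| := abs_sub _ _
        _ ≤ Ls i + Ls i := add_le_add h2 h3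
        _ = 2 * Ls i := by ring)
    refine ⟨f + ∑ i, u i * v i, Finset.add_mem_add hf (mem_image_of_mem _ hu),
      ∑ i, z i * v i, ⟨z, hz, rfl⟩, ?_⟩
    have h4 : s - s' = ∑ i, (c - c') i * v i := by
      rw [e, e']
      simp only [Pi.sub_apply, sub_mul, Finset.sum_sub_distrib]
      ring
    rw [h4, e2]
    simp only [Pi.add_apply, add_mul, Finset.sum_add_distrib]
    ring

/-- the constant of the next theorem -/
noncomputable def cR : ℝ := 1269100 + (94 + cM 1410)

/-- Small doubling and a rich subset. -/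
theorem small_doubling (A : Finset ℤ) (hA : A.Nonempty) (m : ℕ) (K R : ℝ) (hm : 2 ≤ m)
    (hK : 1 ≤ K) (hR : 1 ≤ R) (hAA : ((A + A).card : ℝ) ≤ K * A.card) (h : Rich m R A) :
    Cov (423000 * gr m R) A.card (K * R ^ 2 * num cR (gr m R)) A := by
  obtain ⟨A', hA', h1, h2⟩ := h
  have hAc : (0 : ℝ) < A.card := by exact_mod_cast hA.card_pos
  have hA'ne : A'.Nonempty := by
    rw [Finset.nonempty_iff_ne_empty]
    rintro rfl
    simp only [card_empty, Nat.cast_zero, mul_zero] at h1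
    linarith
  have hL : 1 ≤ gr m R := gr_ge hm hR
  have hd := (inverse A' hA'ne m R hm hR h2).1
  have hnum := num_pos (94 + cM 1410) (gr m R)
  have hcard : (A'.card : ℝ) ≤ A.card := by exact_mod_cast Finset.card_le_card hA'
  have h3 : Dense (423000 * gr m R) ((R * Real.exp (6 * gr m R)) * A.card)
      (R * num (94 + cM 1410) (gr m R)) A := by
    refine dense_sup hA' (by linarith) h1 (hd.mono le_rfl ?_ le_rfl)
    exact mul_le_mul_of_nonneg_left hcard (by positivity)
  have hV : 1 ≤ R * Real.exp (6 * gr m R) := by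
    have : 1 ≤ Real.exp (6 * gr m R) := Real.one_le_exp (by linarith)
    nlinarith
  refine (cov_of_dense A hA (by linarith) (by positivity) hAA hV h3).mono le_rfl le_rfl ?_
    (Finset.Subset.refl _)
  have e1 : Real.exp (1269006 * gr m R) =
      Real.exp (6 * gr m R) * Real.exp (3 * (423000 * gr m R)) := by
    rw [← Real.exp_add]; congr 1; ring
  calc K * (R * num (94 + cM 1410) (gr m R)) *
        (R * Real.exp (6 * gr m R) * Real.exp (3 * (423000 * gr m R)))
      = K * R ^ 2 * (Real.exp (1269006 * gr m R) * num (94 + cM 1410) (gr m R)) := by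
        rw [e1]; ring
    _ ≤ K * R ^ 2 * num (1269006 + (94 + cM 1410)) (gr m R) :=
        mul_le_mul_of_nonneg_left (exp_mul_num (by norm_num) hL) (by positivity)
    _ ≤ K * R ^ 2 * num cR (gr m R) := by
        apply mul_le_mul_of_nonneg_left (num_mono _ hL) (by positivity)
        unfold cR
        linarith

/-- From coverings to slow growth. -/
theorem slow_of_cov {D V M : ℝ} (A : Finset ℤ) (hA : A.Nonempty) (m : ℕ) (hm : 1 ≤ m)
    (hM : 1 ≤ M) (hV : 1 ≤ V) (h : Cov D (V * A.card) M A) :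
    Slow m (Real.exp (D * Real.log m) * V * M) A := by
  classical
  obtain ⟨P, T, ⟨k, v, Ls, hk, hp, hv, rfl⟩, hT, hc⟩ := h
  have hAc : (0 : ℝ) < A.card := by exact_mod_cast hA.card_pos
  have hm1 : (1 : ℝ) ≤ m := by exact_mod_cast hm
  have hlm : 0 ≤ Real.log m := Real.log_nonneg hm1
  set At : ℤ → Finset ℤ := fun t => A.filter fun z => ∃ x : Fin k → ℤ, (∀ i, |x i| ≤ Ls i) ∧
    z = t + ∑ i, x i * v i with hAt
  have hTne : T.Nonempty := by
    obtain ⟨b, hb⟩ := hA
    obtain ⟨t, ht, -⟩ := hc b hb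
    exact ⟨t, ht⟩
  obtain ⟨t, ht, hmax⟩ := Finset.exists_max_image T (fun t => (At t).card) hTne
  have h1 : (A.card : ℝ) ≤ M * (At t).card := by
    have h2 : A ⊆ T.biUnion At := by
      intro a ha
      obtain ⟨t', ht', p, ⟨x, hx, rfl⟩, e⟩ := hc a ha
      exact mem_biUnion.2 ⟨t', ht', mem_filter.2 ⟨ha, x, hx, e⟩⟩
    have h3 : A.card ≤ T.card * (At t).card := by
      calc A.card ≤ (T.biUnion At).card := Finset.card_le_card h2
        _ ≤ ∑ t' ∈ T, (At t').card := Finset.card_biUnion_le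
        _ ≤ ∑ _t' ∈ T, (At t).card := Finset.sum_le_sum hmax
        _ = _ := by rw [Finset.sum_const, smul_eq_mul]
    have h4 : (A.card : ℝ) ≤ T.card * (At t).card := by exact_mod_cast h3
    exact h4.trans (mul_le_mul_of_nonneg_right hT (Nat.cast_nonneg _))
  have hX1 : 1 ≤ Real.exp (D * Real.log m) := by
    apply Real.one_le_exp
    have : (0 : ℝ) ≤ D := (Nat.cast_nonneg k).trans hk
    positivity
  refine ⟨At t, Finset.filter_subset _ _, ?_, ?_⟩
  · refine h1.trans (mul_le_mul_of_nonneg_right ?_ (Nat.cast_nonneg _))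
    have h2 : 1 ≤ Real.exp (D * Real.log m) * V := by nlinarith
    nlinarith
  · -- sums of `m` elements
    have h2 : sm (At t) m ⊆ (Fintype.piFinset fun i : Fin k =>
        Finset.Icc (-((m * Ls i : ℕ) : ℤ)) ((m * Ls i : ℕ) : ℤ)).image
          fun c => m * t + ∑ i, c i * v i := by
      intro z hz
      obtain ⟨f, hf, rfl⟩ := mem_image.1 hz
      rw [Fintype.mem_piFinset] at hf
      have h3 : ∀ j, ∃ x : Fin k → ℤ, (∀ i, |x i| ≤ Ls i) ∧ f j = t + ∑ i, x i * v i :=
        fun j => (mem_filter.1 (hf j)).2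
      choose x hx hfx using h3
      refine mem_image.2 ⟨fun i => ∑ j, x j i, ?_, ?_⟩
      · rw [Fintype.mem_piFinset]
        intro i
        have h4 : |∑ j, x j i| ≤ ((m * Ls i : ℕ) : ℤ) := by
          calc |∑ j, x j i| ≤ ∑ j, |x j i| := Finset.abs_sum_le_sum_abs _ _
            _ ≤ ∑ _j : Fin m, (Ls i : ℤ) := Finset.sum_le_sum fun j _ => hx j i
            _ = _ := by rw [Finset.sum_const, Finset.card_univ, Fintype.card_fin]; simp
        exact Finset.mem_Icc.2 (abs_le.1 h4)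
      · simp only [hfx]
        rw [Finset.sum_add_distrib, Finset.sum_const, Finset.card_univ, Fintype.card_fin,
          nsmul_eq_mul, Finset.sum_comm]
        congr 1
        refine Finset.sum_congr rfl fun i _ => ?_
        rw [Finset.sum_mul]
    have h3 : (sm (At t) m).card ≤ ∏ i, (2 * (m * Ls i) + 1) := by
      refine (Finset.card_le_card h2).trans (Finset.card_image_le.trans ?_)
      rw [Fintype.card_piFinset]
      refine Finset.prod_le_prod (fun _ _ => Nat.zero_le _) fun i _ => ?_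
      rw [Int.card_Icc]
      omega
    have h4 : (sm (At t) m).card ≤ m ^ k * ∏ i, (2 * Ls i + 1) := by
      refine h3.trans ?_
      calc ∏ i, (2 * (m * Ls i) + 1) ≤ ∏ i : Fin k, (m * (2 * Ls i + 1)) := by
            refine Finset.prod_le_prod (fun _ _ => Nat.zero_le _) fun i _ => ?_
            nlinarith
        _ = _ := by
            rw [Finset.prod_mul_distrib, Finset.prod_const, Finset.card_univ, Fintype.card_fin]
    have h5 : ((sm (At t) m).card : ℝ) ≤ (m : ℝ) ^ k * (V * A.card) := by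
      have h6 : ((sm (At t) m).card : ℝ) ≤ (m : ℝ) ^ k * ((∏ i, (2 * Ls i + 1) : ℕ) : ℝ) := by
        exact_mod_cast h4
      exact h6.trans (mul_le_mul_of_nonneg_left hv (by positivity))
    have h6 : (m : ℝ) ^ k ≤ Real.exp (D * Real.log m) := by
      have h7 : (m : ℝ) ^ k = Real.exp (k * Real.log m) := by
        rw [Real.exp_nat_mul, Real.exp_log (by linarith)]
      rw [h7]
      exact Real.exp_le_exp.2 (mul_le_mul_of_nonneg_right hk hlm)
    calc ((sm (At t) m).card : ℝ) ≤ (m : ℝ) ^ k * (V * A.card) := h5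
      _ ≤ Real.exp (D * Real.log m) * (V * (M * (At t).card)) := by
          apply mul_le_mul h6 _ (by positivity) (Real.exp_pos _).le
          exact mul_le_mul_of_nonneg_left h1 (by linarith)
      _ = _ := by ring

end Pool.Agent.P8H91.GR
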