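import Pool.Agent.Y359.LE.Rep

/-!
# The flattening step without logarithms

If the `L^2` norm of `f * f` is almost as large as possible then a level set of `f` (between two
heights of bounded quotient) has almost maximal additive energy.
-/

set_option autoImplicit false

namespace Pool.Agent.P8H91.GR

open Finset Pool.Agent.Y359.LE
open scoped Pointwise

/-- sums over all translates -/
lemma sum_shift (g : ℤ → ℝ) (U : ℝ) (h : ∀ Y : Finset ℤ, ∑ z ∈ Y, g z ≤ U) (Z : Finset ℤ) (w : ℤ) :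
    ∑ z ∈ Z, g (z - w) ≤ U := by
  have h1 := h (Z.image fun z => z - w)
  rw [Finset.sum_image] at h1
  · exact h1
  · intro x _ y _ hxy
    have : x - w = y - w := hxy
    linarith

lemma sum_shift' (g : ℤ → ℝ) (U : ℝ) (h : ∀ Y : Finset ℤ, ∑ z ∈ Y, g z ≤ U) (X : Finset ℤ) (z : ℤ) :
    ∑ w ∈ X, g (z - w) ≤ U := by
  have h1 := h (X.image fun w => z - w)
  rw [Finset.sum_image] at h1
  · exact h1
  · intro x _ y _ hxy
    have : z - x = z - y := hxy
    linarith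

lemma conv_one (u v : ℤ → ℝ) (hu : ∀ z, 0 ≤ u z) (X Z : Finset ℤ)
    (U V : ℝ) (hU0 : 0 ≤ U) (hU : ∑ w ∈ X, u w ≤ U) (hV0 : 0 ≤ V)
    (hV : ∀ w, ∑ z ∈ Z, v (z - w) ^ 2 ≤ V) :
    ∑ z ∈ Z, (∑ w ∈ X, u w * v (z - w)) ^ 2 ≤ U ^ 2 * V := by
  have h1 : ∀ z, (∑ w ∈ X, u w * v (z - w)) ^ 2 ≤ U * ∑ w ∈ X, u w * v (z - w) ^ 2 := by
    intro z
    have h2 : (∑ w ∈ X, u w * v (z - w)) ^ 2 ≤
        (∑ w ∈ X, u w) * ∑ w ∈ X, u w * v (z - w) ^ 2 := by
      apply sum_sq_le_sum_mul_sum_of_sq_eq_mul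
      · intro w _; exact hu w
      · intro w _; exact mul_nonneg (hu w) (sq_nonneg _)
      · intro w _; ring
    refine h2.trans (mul_le_mul_of_nonneg_right hU ?_)
    exact Finset.sum_nonneg fun w _ => mul_nonneg (hu w) (sq_nonneg _)
  calc ∑ z ∈ Z, (∑ w ∈ X, u w * v (z - w)) ^ 2
      ≤ ∑ z ∈ Z, U * ∑ w ∈ X, u w * v (z - w) ^ 2 := Finset.sum_le_sum fun z _ => h1 z
    _ = U * ∑ w ∈ X, u w * ∑ z ∈ Z, v (z - w) ^ 2 := by
        rw [← Finset.mul_sum, Finset.sum_comm]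
        congr 1
        refine Finset.sum_congr rfl fun w _ => ?_
        rw [Finset.mul_sum]
    _ ≤ U * ∑ w ∈ X, u w * V := by
        refine mul_le_mul_of_nonneg_left ?_ hU0
        exact Finset.sum_le_sum fun w _ => mul_le_mul_of_nonneg_left (hV w) (hu w)
    _ = U * V * ∑ w ∈ X, u w := by rw [← Finset.sum_mul]; ring
    _ ≤ U * V * U := mul_le_mul_of_nonneg_left hU (mul_nonneg hU0 hV0)
    _ = U ^ 2 * V := by ring

lemma conv_two (u v : ℤ → ℝ) (hv : ∀ z, 0 ≤ v z) (X Z : Finset ℤ)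
    (U V : ℝ) (hU0 : 0 ≤ U) (hU : ∀ z, ∑ w ∈ X, v (z - w) ≤ U) (hU' : ∀ w, ∑ z ∈ Z, v (z - w) ≤ U)
    (hV : ∑ w ∈ X, u w ^ 2 ≤ V) :
    ∑ z ∈ Z, (∑ w ∈ X, u w * v (z - w)) ^ 2 ≤ U ^ 2 * V := by
  have h1 : ∀ z, (∑ w ∈ X, u w * v (z - w)) ^ 2 ≤ U * ∑ w ∈ X, u w ^ 2 * v (z - w) := by
    intro z
    have h2 : (∑ w ∈ X, u w * v (z - w)) ^ 2 ≤
        (∑ w ∈ X, v (z - w)) * ∑ w ∈ X, u w ^ 2 * v (z - w) := by
      apply sum_sq_le_sum_mul_sum_of_sq_eq_mul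
      · intro w _; exact hv _
      · intro w _; exact mul_nonneg (sq_nonneg _) (hv _)
      · intro w _; ring
    refine h2.trans (mul_le_mul_of_nonneg_right (hU z) ?_)
    exact Finset.sum_nonneg fun w _ => mul_nonneg (sq_nonneg _) (hv _)
  calc ∑ z ∈ Z, (∑ w ∈ X, u w * v (z - w)) ^ 2
      ≤ ∑ z ∈ Z, U * ∑ w ∈ X, u w ^ 2 * v (z - w) := Finset.sum_le_sum fun z _ => h1 z
    _ = U * ∑ w ∈ X, u w ^ 2 * ∑ z ∈ Z, v (z - w) := by
        rw [← Finset.mul_sum, Finset.sum_comm]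
        congr 1
        refine Finset.sum_congr rfl fun w _ => ?_
        rw [Finset.mul_sum]
    _ ≤ U * ∑ w ∈ X, u w ^ 2 * U := by
        refine mul_le_mul_of_nonneg_left ?_ hU0
        exact Finset.sum_le_sum fun w _ => mul_le_mul_of_nonneg_left (hU' w) (sq_nonneg _)
    _ = U ^ 2 * ∑ w ∈ X, u w ^ 2 := by rw [← Finset.sum_mul]; ring
    _ ≤ U ^ 2 * V := mul_le_mul_of_nonneg_left hV (sq_nonneg _)

/-- The middle part of `f`. -/
theorem three (f : ℤ → ℝ) (hf : ∀ z, 0 ≤ f z) (a E κ : ℝ) (ha : 0 < a) (hE : 0 < E) (hκ : 1 ≤ κ)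
    (h1 : ∀ Y : Finset ℤ, ∑ z ∈ Y, f z ≤ a) (h2 : ∀ Y : Finset ℤ, ∑ z ∈ Y, f z ^ 2 ≤ E)
    (X : Finset ℤ) (hX : ∀ z, f z ≠ 0 → z ∈ X)
    (h : a ^ 2 * E ≤ κ * ∑ z ∈ X + X, (∑ w ∈ X, f w * f (z - w)) ^ 2) :
    ∃ B ⊆ X, (∀ z ∈ B, E ≤ 64 * κ * a * f z) ∧ a ^ 6 ≤ 2 ^ 15 * κ ^ 5 * E ^ 3 * B.addEnergy B ∧
      (B.card : ℝ) * E ≤ 64 * κ * a ^ 2 := by
  classical
  set s : ℝ := E / (64 * κ * a) with hs
  set t : ℝ := 8 * κ * E / a with ht
  have hκ0 : 0 < κ := by linarith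
  have hs0 : 0 < s := by positivity
  have ht0 : 0 < t := by positivity
  set B : Finset ℤ := X.filter (fun z => s ≤ f z ∧ f z ≤ t) with hB
  set fs : ℤ → ℝ := fun z => if f z < s then f z else 0 with hfs
  set fl : ℤ → ℝ := fun z => if t < f z then f z else 0 with hfl
  set fm : ℤ → ℝ := fun z => if s ≤ f z ∧ f z ≤ t then f z else 0 with hfm
  have hfs0 : ∀ z, 0 ≤ fs z := fun z => by simp only [hfs]; split_ifs <;> [exact hf z; exact le_rfl]
  have hfl0 : ∀ z, 0 ≤ fl z := fun z => by simp only [hfl]; split_ifs <;> [exact hf z; exact le_rfl]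
  have hfm0 : ∀ z, 0 ≤ fm z := fun z => by simp only [hfm]; split_ifs <;> [exact hf z; exact le_rfl]
  have hfs2 : ∀ z, fs z ^ 2 ≤ s * f z := fun z => by
    simp only [hfs]
    split_ifs with h3
    · rw [sq]; exact mul_le_mul_of_nonneg_right h3.le (hf z)
    · rw [zero_pow (by norm_num)]; exact mul_nonneg hs0.le (hf z)
  have hfl1 : ∀ z, fl z ≤ f z ^ 2 / t := fun z => by
    simp only [hfl]
    split_ifs with h3
    · rw [le_div_iff₀ ht0, sq]; exact mul_le_mul_of_nonneg_left h3.le (hf z)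
    · positivity
  have hsumfs : ∀ Y : Finset ℤ, ∑ z ∈ Y, fs z ^ 2 ≤ s * a := fun Y => by
    calc ∑ z ∈ Y, fs z ^ 2 ≤ ∑ z ∈ Y, s * f z := Finset.sum_le_sum fun z _ => hfs2 z
      _ = s * ∑ z ∈ Y, f z := by rw [Finset.mul_sum]
      _ ≤ s * a := mul_le_mul_of_nonneg_left (h1 Y) hs0.le
  have hsumfl : ∀ Y : Finset ℤ, ∑ z ∈ Y, fl z ≤ E / t := fun Y => by
    calc ∑ z ∈ Y, fl z ≤ ∑ z ∈ Y, f z ^ 2 / t := Finset.sum_le_sum fun z _ => hfl1 z
      _ = (∑ z ∈ Y, f z ^ 2) / t := by rw [Finset.sum_div]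
      _ ≤ E / t := div_le_div_of_nonneg_right (h2 Y) ht0.le
  -- the five convolutions
  have hpt : ∀ z w, f w * f (z - w) ≤ fm w * fm (z - w) + fs w * f (z - w) + f w * fs (z - w) +
      fl w * f (z - w) + f w * fl (z - w) := by
    intro z w
    have p1 := mul_nonneg (hfm0 w) (hfm0 (z - w))
    have p2 := mul_nonneg (hfs0 w) (hf (z - w))
    have p3 := mul_nonneg (hf w) (hfs0 (z - w))
    have p4 := mul_nonneg (hfl0 w) (hf (z - w))
    have p5 := mul_nonneg (hf w) (hfl0 (z - w))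
    have hcase : ∀ y, f y = fs y ∨ f y = fm y ∨ f y = fl y := by
      intro y
      rcases lt_or_ge (f y) s with h3 | h3
      · left; simp only [hfs]; rw [if_pos h3]
      · rcases le_or_gt (f y) t with h4 | h4
        · right; left; simp only [hfm]; rw [if_pos ⟨h3, h4⟩]
        · right; right; simp only [hfl]; rw [if_pos h4]
    rcases hcase w with e | e | e
    · have : f w * f (z - w) = fs w * f (z - w) := by rw [← e]
      linarith
    · rcases hcase (z - w) with e' | e' | e'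
      · have : f w * f (z - w) = f w * fs (z - w) := by rw [← e']
        linarith
      · have : f w * f (z - w) = fm w * fm (z - w) := by rw [← e, ← e']
        linarith
      · have : f w * f (z - w) = f w * fl (z - w) := by rw [← e']
        linarith
    · have : f w * f (z - w) = fl w * f (z - w) := by rw [← e]
      linarith
  set Z : Finset ℤ := X + X with hZ
  set T1 : ℤ → ℝ := fun z => ∑ w ∈ X, fm w * fm (z - w) with hT1
  set T2 : ℤ → ℝ := fun z => ∑ w ∈ X, fs w * f (z - w) with hT2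
  set T3 : ℤ → ℝ := fun z => ∑ w ∈ X, f w * fs (z - w) with hT3
  set T4 : ℤ → ℝ := fun z => ∑ w ∈ X, fl w * f (z - w) with hT4
  set T5 : ℤ → ℝ := fun z => ∑ w ∈ X, f w * fl (z - w) with hT5
  have hEt : 0 ≤ E / t := by positivity
  have hsa : 0 ≤ s * a := by positivity
  have b2 : ∑ z ∈ Z, T2 z ^ 2 ≤ a ^ 2 * (s * a) :=
    conv_two fs f hf X Z a (s * a) ha.le (fun z => sum_shift' f a h1 X z)
      (fun w => sum_shift f a h1 Z w) (hsumfs X)
  have b3 : ∑ z ∈ Z, T3 z ^ 2 ≤ a ^ 2 * (s * a) :=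
    conv_one f fs hf X Z a (s * a) ha.le (h1 X) hsa
      (fun w => sum_shift (fun z => fs z ^ 2) (s * a) hsumfs Z w)
  have b4 : ∑ z ∈ Z, T4 z ^ 2 ≤ (E / t) ^ 2 * E :=
    conv_one fl f hfl0 X Z (E / t) E hEt (hsumfl X) hE.le
      (fun w => sum_shift (fun z => f z ^ 2) E h2 Z w)
  have b5 : ∑ z ∈ Z, T5 z ^ 2 ≤ (E / t) ^ 2 * E :=
    conv_two f fl hfl0 X Z (E / t) E hEt (fun z => sum_shift' fl _ hsumfl X z)
      (fun w => sum_shift fl _ hsumfl Z w) (h2 X)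
  have b1 : ∑ z ∈ Z, T1 z ^ 2 ≤ t ^ 4 * B.addEnergy B := by
    have hBX : B ⊆ X := Finset.filter_subset _ _
    have hfmB : ∀ z, fm z ≤ t * (if z ∈ B then 1 else 0) := by
      intro z
      simp only [hfm]
      split_ifs with h3 h4 h4
      · linarith [h3.2]
      · exfalso
        apply h4
        exact mem_filter.2 ⟨hX z (by linarith [h3.1]), h3⟩
      · linarith
      · simp
    have hTr : ∀ z, T1 z ≤ t ^ 2 * (rs B B z : ℝ) := by
      intro z
      rw [rs_eq B B X hBX z]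
      push_cast
      rw [Finset.mul_sum]
      refine Finset.sum_le_sum fun w _ => ?_
      calc fm w * fm (z - w) ≤ (t * (if w ∈ B then 1 else 0)) * (t * (if z - w ∈ B then 1 else 0)) :=
            mul_le_mul (hfmB w) (hfmB _) (hfm0 _) (by split_ifs <;> linarith)
        _ = t ^ 2 * ((if w ∈ B then 1 else 0) * (if z - w ∈ B then 1 else 0)) := by ring
    have hT0 : ∀ z, 0 ≤ T1 z := fun z =>
      Finset.sum_nonneg fun w _ => mul_nonneg (hfm0 w) (hfm0 _)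
    rw [energy_rs B B Z (Finset.add_subset_add hBX hBX)]
    push_cast
    rw [Finset.mul_sum]
    refine Finset.sum_le_sum fun z _ => ?_
    calc T1 z ^ 2 ≤ (t ^ 2 * (rs B B z : ℝ)) ^ 2 := pow_le_pow_left₀ (hT0 z) (hTr z) 2
      _ = t ^ 4 * (rs B B z : ℝ) ^ 2 := by ring
  have hsum : ∑ z ∈ Z, (∑ w ∈ X, f w * f (z - w)) ^ 2 ≤
      5 * (∑ z ∈ Z, T1 z ^ 2 + ∑ z ∈ Z, T2 z ^ 2 + ∑ z ∈ Z, T3 z ^ 2 + ∑ z ∈ Z, T4 z ^ 2 +
        ∑ z ∈ Z, T5 z ^ 2) := by
    rw [← Finset.sum_add_distrib, ← Finset.sum_add_distrib, ← Finset.sum_add_distrib,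
      ← Finset.sum_add_distrib, Finset.mul_sum]
    refine Finset.sum_le_sum fun z _ => ?_
    have h3 : ∑ w ∈ X, f w * f (z - w) ≤ T1 z + T2 z + T3 z + T4 z + T5 z := by
      simp only [hT1, hT2, hT3, hT4, hT5]
      rw [← Finset.sum_add_distrib, ← Finset.sum_add_distrib, ← Finset.sum_add_distrib,
        ← Finset.sum_add_distrib]
      exact Finset.sum_le_sum fun w _ => hpt z w
    have h4 : 0 ≤ ∑ w ∈ X, f w * f (z - w) :=
      Finset.sum_nonneg fun w _ => mul_nonneg (hf w) (hf _)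
    have h5 : (∑ w ∈ X, f w * f (z - w)) ^ 2 ≤ (T1 z + T2 z + T3 z + T4 z + T5 z) ^ 2 :=
      pow_le_pow_left₀ h4 h3 2
    refine h5.trans ?_
    nlinarith [sq_nonneg (T1 z - T2 z), sq_nonneg (T1 z - T3 z), sq_nonneg (T1 z - T4 z),
      sq_nonneg (T1 z - T5 z), sq_nonneg (T2 z - T3 z), sq_nonneg (T2 z - T4 z),
      sq_nonneg (T2 z - T5 z), sq_nonneg (T3 z - T4 z), sq_nonneg (T3 z - T5 z),
      sq_nonneg (T4 z - T5 z)]
  refine ⟨B, Finset.filter_subset _ _, ?_, ?_, ?_⟩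
  · intro z hz
    have h3 := (mem_filter.1 hz).2.1
    rw [hs, div_le_iff₀ (by positivity)] at h3
    linarith
  · -- the energy
    set eB : ℝ := (B.addEnergy B : ℝ) with heB
    have eqs : a ^ 2 * (s * a) = a ^ 2 * E / (64 * κ) := by
      rw [hs]; field_simp
    have eqt : (E / t) ^ 2 * E = a ^ 2 * E / (64 * κ ^ 2) := by
      rw [ht]; field_simp; ring
    have hκ2 : a ^ 2 * E / (64 * κ ^ 2) ≤ a ^ 2 * E / (64 * κ) := by
      apply div_le_div_of_nonneg_left (by positivity) (by positivity)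
      nlinarith
    have h3 : a ^ 2 * E ≤ κ * (5 * (t ^ 4 * eB + 4 * (a ^ 2 * E / (64 * κ)))) := by
      refine h.trans (mul_le_mul_of_nonneg_left (hsum.trans ?_) hκ0.le)
      rw [eqs] at b2 b3
      rw [eqt] at b4 b5
      linarith
    have h4 : κ * (5 * (4 * (a ^ 2 * E / (64 * κ)))) = 5 / 16 * (a ^ 2 * E) := by
      field_simp; ring
    have h5 : a ^ 2 * E ≤ 8 * κ * (t ^ 4 * eB) := by
      have h6 : κ * (5 * (t ^ 4 * eB + 4 * (a ^ 2 * E / (64 * κ)))) =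
          5 * κ * (t ^ 4 * eB) + 5 / 16 * (a ^ 2 * E) := by
        rw [← h4]; ring
      rw [h6] at h3
      have h7 : 0 ≤ κ * (t ^ 4 * eB) := by positivity
      nlinarith
    have h6 : 8 * κ * (t ^ 4 * eB) * a ^ 4 = (2 ^ 15 * κ ^ 5 * E ^ 3 * eB) * E := by
      rw [ht]; field_simp; ring
    have h7 : a ^ 6 * E ≤ (2 ^ 15 * κ ^ 5 * E ^ 3 * eB) * E := by
      rw [← h6]
      have h8 := mul_le_mul_of_nonneg_right h5 (by positivity : 0 ≤ a ^ 4)
      calc a ^ 6 * E = a ^ 2 * E * a ^ 4 := by ring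
        _ ≤ _ := h8
    exact le_of_mul_le_mul_right h7 hE
  · have h3 : s * B.card ≤ a := by
      calc s * B.card = ∑ _z ∈ B, s := by rw [Finset.sum_const, nsmul_eq_mul]; ring
        _ ≤ ∑ z ∈ B, f z := Finset.sum_le_sum fun z hz => (mem_filter.1 hz).2.1
        _ ≤ a := h1 B
    rw [hs, div_mul_eq_mul_div, div_le_iff₀ (by positivity)] at h3
    calc (B.card : ℝ) * E = E * B.card := by ring
      _ ≤ a * (64 * κ * a) := h3
      _ = 64 * κ * a ^ 2 := by ring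

end Pool.Agent.P8H91.GR
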