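import Mathlib

/-!
# Lattice points of dilated convex bodies
-/

set_option autoImplicit false

namespace Pool.Agent.P8H91.GR

open Finset MeasureTheory
open scoped Pointwise

/-- Compact convex centrally symmetric with nonempty interior. -/
def Body {d : ℕ} (B : Set (Fin d → ℝ)) : Prop :=
  Convex ℝ B ∧ IsCompact B ∧ (interior B).Nonempty ∧ ∀ x ∈ B, -x ∈ B

/-- The integer points of `B`. -/
def pts {d : ℕ} (B : Set (Fin d → ℝ)) : Set (Fin d → ℤ) := {c | (fun i => (c i : ℝ)) ∈ B}

theorem pts_finite {d : ℕ} (B : Set (Fin d → ℝ)) (hB : Bornology.IsBounded B) :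
    (pts B).Finite := by
  obtain ⟨M, hM⟩ := hB.exists_norm_le
  refine (Fintype.piFinset fun _ : Fin d => Finset.Icc (-⌈M⌉) ⌈M⌉).finite_toSet.subset ?_
  intro c hc
  rw [Finset.mem_coe, Fintype.mem_piFinset]
  intro i
  have h1 : |(c i : ℝ)| ≤ M := (norm_le_pi_norm (fun i => (c i : ℝ)) i).trans (hM _ hc)
  rw [Finset.mem_Icc]
  have h2 := abs_le.1 h1
  have h3 := Int.le_ceil M
  constructor
  · have : (-(⌈M⌉ : ℝ)) ≤ c i := by linarith
    exact_mod_cast this
  · have : (c i : ℝ) ≤ ⌈M⌉ := by linarith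
    exact_mod_cast this

theorem body_zero {d : ℕ} {B : Set (Fin d → ℝ)} (hB : Body B) : (0 : Fin d → ℝ) ∈ B := by
  obtain ⟨h1, -, ⟨x, hx⟩, h3⟩ := hB
  have hx' := interior_subset hx
  have := h1 hx' (h3 x hx') (by norm_num : (0 : ℝ) ≤ 1 / 2) (by norm_num : (0 : ℝ) ≤ 1 / 2)
    (by norm_num)
  simpa using this

theorem body_mid {d : ℕ} {B : Set (Fin d → ℝ)} (hB : Body B) {b c : Fin d → ℝ} (hb : b ∈ B)
    (hc : c ∈ B) : (1 / 2 : ℝ) • (b - c) ∈ B := by
  obtain ⟨h1, -, -, h3⟩ := hB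
  have := h1 hb (h3 c hc) (by norm_num : (0 : ℝ) ≤ 1 / 2) (by norm_num : (0 : ℝ) ≤ 1 / 2)
    (by norm_num)
  rw [smul_sub, sub_eq_add_neg, ← smul_neg]
  exact this

/-- The number of lattice points of `m B`. -/
theorem lat_growth {d : ℕ} (B : Set (Fin d → ℝ)) (hB : Body B) (m : ℕ) :
    (pts ((m : ℝ) • B)).ncard ≤ (2 * m + 1) ^ d * (pts B).ncard := by
  classical
  have hfin1 : (pts B).Finite := pts_finite B hB.2.1.isBounded
  have hfinm : (pts ((m : ℝ) • B)).Finite := pts_finite _ (hB.2.1.smul _).isBounded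
  set Λ : Finset (Fin d → ℤ) := hfinm.toFinset with hΛ
  set r : (Fin d → ℤ) → (Fin d → ℝ) := fun c i => (c i : ℝ) with hr
  -- maximal separated sets
  set 𝓕 : Finset (Finset (Fin d → ℤ)) :=
    Λ.powerset.filter (fun F => ∀ x ∈ F, ∀ y ∈ F, x ≠ y → r (x - y) ∉ B) with h𝓕
  have hne : 𝓕.Nonempty := ⟨∅, mem_filter.2 ⟨mem_powerset.2 (Finset.empty_subset _),
    fun x hx => absurd hx (Finset.notMem_empty x)⟩⟩
  obtain ⟨F, hF, hmax⟩ := Finset.exists_max_image 𝓕 Finset.card hne
  obtain ⟨hFΛ, hsep⟩ := mem_filter.1 hF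
  rw [mem_powerset] at hFΛ
  have hrsub : ∀ x y : Fin d → ℤ, r (x - y) = r x - r y := by
    intro x y
    ext i
    simp [hr]
  -- covering
  have hcov : ∀ y ∈ Λ, ∃ x ∈ F, r (y - x) ∈ B := by
    intro y hy
    by_contra hcon
    push Not at hcon
    have hyF : y ∉ F := by
      intro hyF
      apply hcon y hyF
      rw [sub_self]
      have h0 := body_zero hB
      have e : r (0 : Fin d → ℤ) = 0 := by ext i; simp [hr]
      rw [e]
      exact h0
    have h1 : insert y F ∈ 𝓕 := by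
      refine mem_filter.2 ⟨mem_powerset.2 (Finset.insert_subset hy hFΛ), ?_⟩
      intro u hu v hv huv
      rcases Finset.mem_insert.1 hu with rfl | hu'
      · rcases Finset.mem_insert.1 hv with rfl | hv'
        · exact absurd rfl huv
        · exact hcon v hv'
      · rcases Finset.mem_insert.1 hv with rfl | hv'
        · intro hB'
          apply hcon u hu'
          have h2 := hB.2.2.2 _ hB'
          have e : -(r (u - v)) = r (v - u) := by rw [hrsub, hrsub]; abel
          rw [e] at h2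
          exact h2
        · exact hsep u hu' v hv' huv
    have h2 := hmax _ h1
    rw [Finset.card_insert_of_notMem hyF] at h2
    omega
  -- the size of `F`
  have hvol : F.card ≤ (2 * m + 1) ^ d := by
    have hB0 : 0 < volume B := by
      have h1 : 0 < volume (interior B) := isOpen_interior.measure_pos _ hB.2.2.1
      exact lt_of_lt_of_le h1 (measure_mono interior_subset)
    have hBtop : volume B ≠ ⊤ := hB.2.1.measure_lt_top.ne
    have hmeas : MeasurableSet B := hB.2.1.measurableSet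
    set H : Set (Fin d → ℝ) := (1 / 2 : ℝ) • B with hH
    have hHmeas : MeasurableSet H := hmeas.const_smul₀ _
    have hdisj : (F : Set (Fin d → ℤ)).PairwiseDisjoint (fun x => (r x) +ᵥ H) := by
      intro x hx y hy hxy
      rw [Function.onFun, Set.disjoint_left]
      rintro z ⟨b, ⟨b', hb', rfl⟩, rfl⟩ ⟨c, ⟨c', hc', rfl⟩, hc⟩
      apply hsep x hx y hy hxy
      have e : r (x - y) = (1 / 2 : ℝ) • (c' - b') := by
        rw [hrsub, smul_sub]
        have h1 : r y + (1 / 2 : ℝ) • c' = r x + (1 / 2 : ℝ) • b' := hc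
        have h2 : r x - r y = (1 / 2 : ℝ) • c' - (1 / 2 : ℝ) • b' := by
          rw [sub_eq_sub_iff_add_eq_add]
          rw [add_comm ((1 / 2 : ℝ) • c') (r y)]
          exact h1.symm
        exact h2
      rw [e]
      exact body_mid hB hc' hb'
    have hsub : (⋃ x ∈ F, (r x) +ᵥ H) ⊆ ((m : ℝ) + 1 / 2) • B := by
      intro z hz
      simp only [Set.mem_iUnion] at hz
      obtain ⟨x, hx, b, ⟨b', hb', rfl⟩, rfl⟩ := hz
      have hxΛ : x ∈ pts ((m : ℝ) • B) := by
        have := hFΛ hx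
        rwa [hΛ, Set.Finite.mem_toFinset] at this
      obtain ⟨a, ha, hae⟩ := hxΛ
      have hpos : (0 : ℝ) < (m : ℝ) + 1 / 2 := by positivity
      refine ⟨((m : ℝ) / ((m : ℝ) + 1 / 2)) • a + ((1 / 2 : ℝ) / ((m : ℝ) + 1 / 2)) • b', ?_, ?_⟩
      · apply hB.1 ha hb' (by positivity) (by positivity)
        rw [← add_div, div_self hpos.ne']
      · show ((m : ℝ) + 1 / 2) • (((m : ℝ) / ((m : ℝ) + 1 / 2)) • a + ((1 / 2 : ℝ) / ((m : ℝ) + 1 / 2)) • b') =
          r x + (1 / 2 : ℝ) • b'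
        rw [smul_add, smul_smul, smul_smul, mul_div_cancel₀ _ hpos.ne',
          mul_div_cancel₀ _ hpos.ne']
        congr 1
    have h1 : volume (⋃ x ∈ F, (r x) +ᵥ H) = ∑ x ∈ F, volume ((r x) +ᵥ H) :=
      measure_biUnion_finset hdisj fun x _ => hHmeas.const_vadd _
    have h2 : ∀ x ∈ F, volume ((r x) +ᵥ H) = volume H := fun x _ => measure_vadd _ _ _
    have h3 : volume H = ENNReal.ofReal ((1 / 2 : ℝ) ^ d) * volume B := by
      rw [hH, Measure.addHaar_smul]
      simp only [Module.finrank_fintype_fun_eq_card, Fintype.card_fin]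
      rw [abs_of_nonneg (by positivity)]
    have h4 : volume (((m : ℝ) + 1 / 2) • B) = ENNReal.ofReal (((m : ℝ) + 1 / 2) ^ d) * volume B := by
      rw [Measure.addHaar_smul]
      simp only [Module.finrank_fintype_fun_eq_card, Fintype.card_fin]
      rw [abs_of_nonneg (by positivity)]
    have h5 : (F.card : ENNReal) * (ENNReal.ofReal ((1 / 2 : ℝ) ^ d) * volume B) ≤
        ENNReal.ofReal (((m : ℝ) + 1 / 2) ^ d) * volume B := by
      calc (F.card : ENNReal) * (ENNReal.ofReal ((1 / 2 : ℝ) ^ d) * volume B)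
          = ∑ x ∈ F, volume ((r x) +ᵥ H) := by
            rw [Finset.sum_congr rfl h2, Finset.sum_const, nsmul_eq_mul, h3]
        _ = volume (⋃ x ∈ F, (r x) +ᵥ H) := h1.symm
        _ ≤ volume (((m : ℝ) + 1 / 2) • B) := measure_mono hsub
        _ = _ := h4
    have h6 : (F.card : ℝ) * (1 / 2 : ℝ) ^ d ≤ ((m : ℝ) + 1 / 2) ^ d := by
      rw [← mul_assoc] at h5
      have h7 := (ENNReal.mul_le_mul_iff_left hB0.ne' hBtop).1 h5
      rw [← ENNReal.ofReal_natCast, ← ENNReal.ofReal_mul (by positivity)] at h7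
      exact (ENNReal.ofReal_le_ofReal_iff (by positivity)).1 h7
    have h8 : (F.card : ℝ) ≤ (2 * m + 1) ^ d := by
      have h9 : ((m : ℝ) + 1 / 2) ^ d = (2 * m + 1) ^ d * (1 / 2 : ℝ) ^ d := by
        rw [← mul_pow]; congr 1; ring
      rw [h9] at h6
      exact le_of_mul_le_mul_right h6 (by positivity)
    exact_mod_cast h8
  -- conclusion
  have h1 : Λ ⊆ F + hfin1.toFinset := by
    intro y hy
    obtain ⟨x, hx, hxy⟩ := hcov y hy
    exact Finset.mem_add.2 ⟨x, hx, y - x, (Set.Finite.mem_toFinset _).2 hxy, by abel⟩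
  rw [Set.ncard_eq_toFinset_card _ hfinm, Set.ncard_eq_toFinset_card _ hfin1]
  calc hfinm.toFinset.card ≤ (F + hfin1.toFinset).card := Finset.card_le_card h1
    _ ≤ F.card * hfin1.toFinset.card := Finset.card_add_le
    _ ≤ _ := Nat.mul_le_mul_right _ hvol

/-- sums of `m` lattice points of `B` -/
theorem sum_mem_pts {d : ℕ} {B : Set (Fin d → ℝ)} (hB : Body B) (m : ℕ)
    (x : Fin m → (Fin d → ℤ)) (hx : ∀ j, x j ∈ pts B) : ∑ j, x j ∈ pts ((m : ℝ) • B) := by
  rcases Nat.eq_zero_or_pos m with rfl | hm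
  · refine ⟨0, body_zero hB, ?_⟩
    simp
    rfl
  · have hm0 : (0 : ℝ) < m := by exact_mod_cast hm
    refine ⟨(m : ℝ)⁻¹ • (fun i => ((∑ j, x j) i : ℝ)), ?_, ?_⟩
    · have h1 : ∑ j : Fin m, (m : ℝ)⁻¹ • (fun i => (x j i : ℝ)) ∈ B := by
        apply hB.1.sum_mem
        · intro j _; positivity
        · rw [Finset.sum_const, Finset.card_univ, Fintype.card_fin, nsmul_eq_mul,
            mul_inv_cancel₀ hm0.ne']
        · intro j _; exact hx j
      have e : (m : ℝ)⁻¹ • (fun i => ((∑ j, x j) i : ℝ)) =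
          ∑ j : Fin m, (m : ℝ)⁻¹ • (fun i => (x j i : ℝ)) := by
        rw [← Finset.smul_sum]
        congr 1
        ext i
        simp
      rw [e]
      exact h1
    · show (m : ℝ) • ((m : ℝ)⁻¹ • (fun i => ((∑ j, x j) i : ℝ))) = _
      rw [smul_smul, mul_inv_cancel₀ hm0.ne', one_smul]

/-- a box -/
theorem box_body {d : ℕ} (L : Fin d → ℕ) :
    Body {x : Fin d → ℝ | ∀ i, |x i| ≤ L i + 1 / 2} ∧
      pts {x : Fin d → ℝ | ∀ i, |x i| ≤ L i + 1 / 2} = {c | ∀ i, |c i| ≤ (L i : ℤ)} := by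
  have e : {x : Fin d → ℝ | ∀ i, |x i| ≤ L i + 1 / 2} =
      Set.Icc (fun i => -((L i : ℝ) + 1 / 2)) (fun i => (L i : ℝ) + 1 / 2) := by
    ext x
    simp only [Set.mem_ofPred_eq, Set.mem_Icc, Pi.le_def, abs_le]
    exact forall_and
  constructor
  · rw [e]
    refine ⟨convex_Icc _ _, isCompact_Icc, ?_, ?_⟩
    · refine ⟨0, ?_⟩
      rw [mem_interior_iff_mem_nhds]
      have : Metric.closedBall (0 : Fin d → ℝ) (1 / 2) ⊆
          Set.Icc (fun i => -((L i : ℝ) + 1 / 2)) (fun i => (L i : ℝ) + 1 / 2) := by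
        intro x hx
        rw [mem_closedBall_zero_iff, pi_norm_le_iff_of_nonneg (by norm_num)] at hx
        constructor
        · intro i
          have h1 := (abs_le.1 (hx i)).1
          have h2 : (0 : ℝ) ≤ L i := Nat.cast_nonneg _
          show -((L i : ℝ) + 1 / 2) ≤ x i
          linarith
        · intro i
          have h1 := (abs_le.1 (hx i)).2
          have h2 : (0 : ℝ) ≤ L i := Nat.cast_nonneg _
          show x i ≤ (L i : ℝ) + 1 / 2
          linarith
      exact Filter.mem_of_superset (Metric.closedBall_mem_nhds 0 (by norm_num)) this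
    · intro x hx
      rw [Set.mem_Icc] at hx ⊢
      constructor
      · intro i
        have := hx.2 i
        simp only [Pi.neg_apply] at this ⊢
        linarith
      · intro i
        have := hx.1 i
        simp only [Pi.neg_apply] at this ⊢
        linarith
  · ext c
    simp only [pts, Set.mem_ofPred_eq]
    refine forall_congr' fun i => ?_
    constructor
    · intro h
      have h1 : ((|c i| : ℤ) : ℝ) < ((L i : ℤ) + 1 : ℤ) := by
        push_cast
        linarith
      have h2 : |c i| < (L i : ℤ) + 1 := by exact_mod_cast h1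
      omega
    · intro h
      have h1 : ((|c i| : ℤ) : ℝ) ≤ ((L i : ℤ) : ℝ) := by exact_mod_cast h
      push_cast at h1
      linarith

end Pool.Agent.P8H91.GR
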