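import Pool.Agent.P8H91.GR.Char
import Pool.Agent.P8H91.GR.Lat

/-!
# Coverings by centred convex progressions
-/

set_option autoImplicit false

namespace Pool.Agent.P8H91.GR

open Finset Pool.Agent.Y359.LE
open scoped Pointwise

/-- `A` is covered by at most `M` translates of a centred convex progression of dimension at most
`D` and volume at most `V`. -/
def CovC (D V M : ℝ) (A : Finset ℤ) : Prop :=
  ∃ (d : ℕ) (B : Set (Fin d → ℝ)) (φ : (Fin d → ℤ) →+ ℤ) (T : Finset ℤ), (d : ℝ) ≤ D ∧ Body B ∧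
    ((pts B).ncard : ℝ) ≤ V ∧ (T.card : ℝ) ≤ M ∧ ∀ a ∈ A, ∃ t ∈ T, ∃ c ∈ pts B, a = t + φ c

/-- Progressions are convex progressions. -/
theorem covC_of_cov {D V M : ℝ} {A : Finset ℤ} (h : Cov D V M A) : CovC D V M A := by
  obtain ⟨P, T, ⟨k, v, L, hk, hp, hv, rfl⟩, hT, hc⟩ := h
  obtain ⟨h1, h2⟩ := box_body L
  refine ⟨k, _, {
    toFun := fun c => ∑ i, c i * v i
    map_zero' := by simp
    map_add' := fun x y => by
      simp only [Pi.add_apply, add_mul, Finset.sum_add_distrib] }, T, hk, h1, ?_, hT, ?_⟩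
  · refine le_trans ?_ hv
    rw [h2]
    have e : {c : Fin k → ℤ | ∀ i, |c i| ≤ (L i : ℤ)} =
        ((Fintype.piFinset fun i : Fin k => Finset.Icc (-(L i : ℤ)) (L i : ℤ) :
          Finset (Fin k → ℤ)) : Set (Fin k → ℤ)) := by
      ext c
      rw [Finset.mem_coe, Fintype.mem_piFinset]
      simp only [Set.mem_ofPred_eq, Finset.mem_Icc, abs_le]
    rw [e, Set.ncard_coe_finset, Fintype.card_piFinset]
    have e2 : ∀ i, (Finset.Icc (-(L i : ℤ)) (L i : ℤ)).card = 2 * L i + 1 := by
      intro i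
      rw [Int.card_Icc]
      omega
    simp only [e2]
    exact le_rfl
  · intro a ha
    obtain ⟨t, ht, p, ⟨x, hx, rfl⟩, e⟩ := hc a ha
    refine ⟨t, ht, x, ?_, e⟩
    rw [h2]
    exact hx

/-- From coverings by convex progressions to slow growth. -/
theorem slow_of_covC {D V M : ℝ} (A : Finset ℤ) (hA : A.Nonempty) (m : ℕ) (hm : 1 ≤ m)
    (hM : 1 ≤ M) (hV : 1 ≤ V) (h : CovC D (V * A.card) M A) :
    Slow m (Real.exp (D * Real.log (3 * m)) * V * M) A := by
  classical
  obtain ⟨k, B, φ, T, hk, hB, hv, hT, hc⟩ := h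
  have hAc : (0 : ℝ) < A.card := by exact_mod_cast hA.card_pos
  have hm1 : (1 : ℝ) ≤ m := by exact_mod_cast hm
  have hlm : 0 ≤ Real.log (3 * m) := Real.log_nonneg (by linarith)
  set At : ℤ → Finset ℤ := fun t => A.filter fun z => ∃ c ∈ pts B, z = t + φ c with hAt
  have hTne : T.Nonempty := by
    obtain ⟨b, hb⟩ := hA
    obtain ⟨t, ht, -⟩ := hc b hb
    exact ⟨t, ht⟩
  obtain ⟨t, ht, hmax⟩ := Finset.exists_max_image T (fun t => (At t).card) hTne
  have h1 : (A.card : ℝ) ≤ M * (At t).card := by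
    have h2 : A ⊆ T.biUnion At := by
      intro a ha
      obtain ⟨t', ht', x, hx, e⟩ := hc a ha
      exact mem_biUnion.2 ⟨t', ht', mem_filter.2 ⟨ha, x, hx, e⟩⟩
    have h3 : A.card ≤ T.card * (At t).card := by
      calc A.card ≤ (T.biUnion At).card := Finset.card_le_card h2
        _ ≤ ∑ t' ∈ T, (At t').card := Finset.card_biUnion_le
        _ ≤ ∑ _t' ∈ T, (At t).card := Finset.sum_le_sum hmax
        _ = _ := by rw [Finset.sum_const, smul_eq_mul]
    have h4 : (A.card : ℝ) ≤ T.card * (At t).card := by exact_mod_cast h3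
    exact h4.trans (mul_le_mul_of_nonneg_right hT (Nat.cast_nonneg _))
  have hD0 : (0 : ℝ) ≤ D := (Nat.cast_nonneg k).trans hk
  have hX1 : 1 ≤ Real.exp (D * Real.log (3 * m)) := Real.one_le_exp (by positivity)
  refine ⟨At t, Finset.filter_subset _ _, ?_, ?_⟩
  · refine h1.trans (mul_le_mul_of_nonneg_right ?_ (Nat.cast_nonneg _))
    have h2 : 1 ≤ Real.exp (D * Real.log (3 * m)) * V := by nlinarith
    nlinarith
  · have hfin : (pts ((m : ℝ) • B)).Finite := pts_finite _ (hB.2.1.smul _).isBounded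
    have h2 : sm (At t) m ⊆ hfin.toFinset.image fun c => m * t + φ c := by
      intro z hz
      obtain ⟨f, hf, rfl⟩ := mem_image.1 hz
      rw [Fintype.mem_piFinset] at hf
      have h3 : ∀ j, ∃ x ∈ pts B, f j = t + φ x := fun j => (mem_filter.1 (hf j)).2
      choose x hx hfx using h3
      refine mem_image.2 ⟨∑ j, x j, (Set.Finite.mem_toFinset _).2 (sum_mem_pts hB m x hx), ?_⟩
      simp only [hfx]
      rw [Finset.sum_add_distrib, Finset.sum_const, Finset.card_univ, Fintype.card_fin,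
        nsmul_eq_mul, map_sum]
    have h3 : (sm (At t) m).card ≤ (2 * m + 1) ^ k * (pts B).ncard := by
      refine (Finset.card_le_card h2).trans (Finset.card_image_le.trans ?_)
      rw [← Set.ncard_eq_toFinset_card _ hfin]
      exact lat_growth B hB m
    have h5 : ((sm (At t) m).card : ℝ) ≤ (2 * m + 1 : ℝ) ^ k * (V * A.card) := by
      have h6 : ((sm (At t) m).card : ℝ) ≤ (2 * m + 1 : ℝ) ^ k * ((pts B).ncard : ℝ) := by
        exact_mod_cast h3
      exact h6.trans (mul_le_mul_of_nonneg_left hv (by positivity))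
    have h6 : (2 * m + 1 : ℝ) ^ k ≤ Real.exp (D * Real.log (3 * m)) := by
      have h7 : (3 * m : ℝ) ^ k = Real.exp (k * Real.log (3 * m)) := by
        rw [Real.exp_nat_mul, Real.exp_log (by linarith)]
      calc (2 * m + 1 : ℝ) ^ k ≤ (3 * m : ℝ) ^ k :=
            pow_le_pow_left₀ (by positivity) (by linarith) k
        _ = _ := h7
        _ ≤ _ := Real.exp_le_exp.2 (mul_le_mul_of_nonneg_right hk hlm)
    calc ((sm (At t) m).card : ℝ) ≤ (2 * m + 1 : ℝ) ^ k * (V * A.card) := h5
      _ ≤ Real.exp (D * Real.log (3 * m)) * (V * (M * (At t).card)) := by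
          apply mul_le_mul h6 _ (by positivity) (Real.exp_pos _).le
          exact mul_le_mul_of_nonneg_left h1 (by linarith)
      _ = _ := by ring

end Pool.Agent.P8H91.GR
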