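import Mathlib

/-!
# The constants
-/

set_option autoImplicit false

namespace Pool.Agent.P8H91.GR

/-- The number of translates. -/
noncomputable def num (C L : ℝ) : ℝ := Real.exp (C * (L * (1 + Real.log L)))

lemma num_pos (C L : ℝ) : 0 < num C L := Real.exp_pos _

lemma ll_ge {L : ℝ} (hL : 1 ≤ L) : L ≤ L * (1 + Real.log L) := by
  have := Real.log_nonneg hL
  nlinarith

lemma num_mono {C C' L : ℝ} (hC : C ≤ C') (hL : 1 ≤ L) : num C L ≤ num C' L := by
  unfold num
  apply Real.exp_le_exp.2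
  have := ll_ge hL
  exact mul_le_mul_of_nonneg_right hC (by linarith)

lemma num_one {C L : ℝ} (hC : 0 ≤ C) (hL : 1 ≤ L) : 1 ≤ num C L := by
  unfold num
  apply Real.one_le_exp
  have := ll_ge hL
  exact mul_nonneg hC (by linarith)

/-- `exp (b L) * num c L ≤ num (b + c) L` -/
lemma exp_mul_num {b c L : ℝ} (hb : 0 ≤ b) (hL : 1 ≤ L) :
    Real.exp (b * L) * num c L ≤ num (b + c) L := by
  unfold num
  rw [← Real.exp_add]
  apply Real.exp_le_exp.2
  have := mul_le_mul_of_nonneg_left (ll_ge hL) hb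
  linarith

/-- the constant for the number of translates -/
noncomputable def cM (B : ℝ) : ℝ := 900 * B + 17000 * B * (1 + Real.log (2 * B))

lemma cM_nonneg {B : ℝ} (hB : 1 ≤ B) : 0 ≤ cM B := by
  unfold cM
  have : 0 ≤ Real.log (2 * B) := Real.log_nonneg (by linarith)
  positivity

lemma consts {B L K' T0 : ℝ} {k : ℕ} (hB : 1 ≤ B) (hL : 1 ≤ L) (hK' : 1 ≤ K')
    (hlog : Real.log (2 * K') ≤ B * L) (hk : (k : ℝ) ≤ 300 * Real.log (2 * K'))
    (hT : T0 ≤ (2 * K') ^ (17000 * (1 + Real.log (1 + Real.log (2 * K'))))) :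
    (k : ℝ) ≤ 300 * B * L ∧ 9 ^ k * T0 ≤ num (cM B) L := by
  have hx0 : 0 ≤ Real.log (2 * K') := Real.log_nonneg (by linarith)
  have hk' : (k : ℝ) ≤ 300 * B * L := by
    calc (k : ℝ) ≤ 300 * Real.log (2 * K') := hk
      _ ≤ 300 * (B * L) := by linarith
      _ = 300 * B * L := by ring
  refine ⟨hk', ?_⟩
  have hBL : 1 ≤ B * L := by nlinarith
  have h9 : (9 : ℝ) ^ k ≤ Real.exp (900 * B * L) := by
    have h1 : (9 : ℝ) ≤ Real.exp 3 := by
      have h2 : (2.7 : ℝ) ≤ Real.exp 1 := by
        have := Real.exp_one_gt_d9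
        linarith
      have h3 : Real.exp 3 = Real.exp 1 ^ 3 := by
        rw [← Real.exp_nat_mul]; norm_num
      rw [h3]
      calc (9 : ℝ) ≤ 2.7 ^ 3 := by norm_num
        _ ≤ _ := pow_le_pow_left₀ (by norm_num) h2 3
    calc (9 : ℝ) ^ k ≤ Real.exp 3 ^ k := pow_le_pow_left₀ (by norm_num) h1 k
      _ = Real.exp (k * 3) := by rw [← Real.exp_nat_mul]
      _ ≤ _ := by
          apply Real.exp_le_exp.2
          linarith
  have hT1 : T0 ≤ num (17000 * B * (1 + Real.log (2 * B))) L := by
    refine hT.trans ?_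
    rw [Real.rpow_def_of_pos (by linarith)]
    unfold num
    apply Real.exp_le_exp.2
    have h1 : Real.log (1 + Real.log (2 * K')) ≤ Real.log (2 * B) + Real.log L := by
      rw [← Real.log_mul (by linarith) (by linarith)]
      apply Real.log_le_log (by linarith)
      nlinarith
    have hl1 : 0 ≤ Real.log (1 + Real.log (2 * K')) := Real.log_nonneg (by linarith)
    have hl2 : 0 ≤ Real.log (2 * B) := Real.log_nonneg (by linarith)
    have hl3 : 0 ≤ Real.log L := Real.log_nonneg hL
    have h2 : 1 + Real.log (1 + Real.log (2 * K')) ≤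
        (1 + Real.log (2 * B)) * (1 + Real.log L) := by nlinarith
    calc Real.log (2 * K') * (17000 * (1 + Real.log (1 + Real.log (2 * K'))))
        ≤ (B * L) * (17000 * ((1 + Real.log (2 * B)) * (1 + Real.log L))) := by
          apply mul_le_mul hlog _ (by positivity) (by linarith)
          linarith
      _ = 17000 * B * (1 + Real.log (2 * B)) * (L * (1 + Real.log L)) := by ring
  calc 9 ^ k * T0 ≤ 9 ^ k * num (17000 * B * (1 + Real.log (2 * B))) L :=
        mul_le_mul_of_nonneg_left hT1 (by positivity)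
    _ ≤ Real.exp (900 * B * L) * num (17000 * B * (1 + Real.log (2 * B))) L :=
        mul_le_mul_of_nonneg_right h9 (num_pos _ _).le
    _ ≤ num (cM B) L := exp_mul_num (by linarith) hL

/-- the logarithmic growth exponent -/
noncomputable def gr (m : ℕ) (K : ℝ) : ℝ := 1 + Real.log K / Real.log m

lemma gr_ge {m : ℕ} {K : ℝ} (hm : 2 ≤ m) (hK : 1 ≤ K) : 1 ≤ gr m K := by
  unfold gr
  have h1 : 0 < Real.log m := Real.log_pos (by exact_mod_cast (by omega : 1 < m))
  have h2 : 0 ≤ Real.log K := Real.log_nonneg hK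
  have := div_nonneg h2 h1.le
  linarith

/-- the growth in one step -/
noncomputable def qq (m : ℕ) (K : ℝ) : ℝ := K ^ (1 / (Nat.log 2 m : ℝ))

lemma log_pos_of {m : ℕ} (hm : 2 ≤ m) : 1 ≤ Nat.log 2 m := Nat.log_pos (by norm_num) hm

lemma qq_ge {m : ℕ} {K : ℝ} (hK : 1 ≤ K) : 1 ≤ qq m K :=
  Real.one_le_rpow hK (by positivity)

lemma qq_pow {m : ℕ} {K : ℝ} (hm : 2 ≤ m) (hK : 1 ≤ K) : qq m K ^ Nat.log 2 m = K := by
  unfold qq
  have h1 := log_pos_of hm
  rw [← Real.rpow_natCast, ← Real.rpow_mul (by linarith), one_div, inv_mul_cancel₀,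
    Real.rpow_one]
  have : Nat.log 2 m ≠ 0 := by omega
  exact_mod_cast this

lemma log_qq {m : ℕ} {K : ℝ} (hm : 2 ≤ m) (hK : 1 ≤ K) : Real.log (2 * qq m K) ≤ 2 * gr m K := by
  have hq := qq_ge (m := m) hK
  have hJ := log_pos_of hm
  have hJ' : (1 : ℝ) ≤ (Nat.log 2 m : ℝ) := by exact_mod_cast hJ
  have hlK : 0 ≤ Real.log K := Real.log_nonneg hK
  have hl2 : 0 < Real.log 2 := Real.log_pos (by norm_num)
  have hl2' : Real.log 2 < 1 := by
    have := Real.log_two_lt_d9
    linarith
  rw [Real.log_mul (by norm_num) (by linarith)]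
  unfold qq gr
  rw [Real.log_rpow (by linarith)]
  have hm0 : 0 < Real.log m := Real.log_pos (by exact_mod_cast (by omega : 1 < m))
  have h1 : Real.log m ≤ 2 * (Nat.log 2 m : ℝ) * Real.log 2 := by
    have h2 : m < 2 ^ (Nat.log 2 m + 1) := Nat.lt_pow_succ_log_self (by norm_num) m
    have h3 : m ≤ 2 ^ (2 * Nat.log 2 m) :=
      h2.le.trans (Nat.pow_le_pow_right (by norm_num) (by omega))
    have h4 : (m : ℝ) ≤ (2 : ℝ) ^ (2 * Nat.log 2 m) := by exact_mod_cast h3
    have h5 := Real.log_le_log (by exact_mod_cast (by omega : 0 < m)) h4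
    rw [Real.log_pow] at h5
    push_cast at h5
    exact h5
  have h2 : 1 / (Nat.log 2 m : ℝ) * Real.log K ≤ 2 * (Real.log K / Real.log m) := by
    rw [one_div, inv_mul_eq_div, ← mul_div_assoc, div_le_div_iff₀ (by linarith) hm0]
    have h3 : Real.log m ≤ 2 * (Nat.log 2 m : ℝ) := by nlinarith
    nlinarith
  linarith

/-- polynomial bounds for slow growth -/
lemma num_le_rpow {m : ℕ} {K C δ : ℝ} (hm : 2 ≤ m) (hK : 1 ≤ K) (hC : 0 ≤ C) (hδ : 0 < δ)
    (h : (1 + Real.log (2 * K)) ^ δ ≤ m) :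
    num C (gr m K) ≤ (2 * K) ^ (5 * C * (1 + 1 / δ)) := by
  have hL := gr_ge hm hK
  set y := Real.log (2 * K) with hy
  have hlK : 0 ≤ Real.log K := Real.log_nonneg hK
  have hyK : y = Real.log 2 + Real.log K := Real.log_mul (by norm_num) (by linarith)
  have hl2 : 0.69 < Real.log 2 := by
    have := Real.log_two_gt_d9
    linarith
  have hl2' : Real.log 2 < 1 := by
    have := Real.log_two_lt_d9
    linarith
  have hm0 : 0 < Real.log m := Real.log_pos (by exact_mod_cast (by omega : 1 < m))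
  have hm2 : Real.log 2 ≤ Real.log m :=
    Real.log_le_log (by norm_num) (by exact_mod_cast hm)
  have hy0 : 0 < y := by linarith
  have hly : 0 ≤ Real.log (1 + y) := Real.log_nonneg (by linarith)
  have hly' : Real.log (1 + y) ≤ y := by
    have := Real.log_le_sub_one_of_pos (show 0 < 1 + y by linarith)
    linarith
  have h1 : δ * Real.log (1 + y) ≤ Real.log m := by
    have h2 := Real.log_le_log (by positivity) h
    rwa [Real.log_rpow (by linarith)] at h2
  have hdiv : Real.log K / Real.log m ≤ Real.log K / Real.log 2 :=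
    div_le_div_of_nonneg_left hlK (by linarith) hm2
  have hL2 : gr m K ≤ 2 * y := by
    unfold gr
    have : Real.log K / Real.log 2 ≤ 2 * Real.log K := by
      rw [div_le_iff₀ (by linarith)]
      nlinarith
    linarith
  have hlogL : Real.log (gr m K) ≤ 1 + Real.log (1 + y) := by
    have h3 : Real.log (gr m K) ≤ Real.log (2 * (1 + y)) :=
      Real.log_le_log (by linarith) (by linarith)
    rw [Real.log_mul (by norm_num) (by linarith)] at h3
    linarith
  have hLl : gr m K * Real.log (1 + y) ≤ y + y / δ := by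
    have h4 : Real.log K / Real.log m * Real.log (1 + y) ≤ y / δ := by
      rw [div_mul_eq_mul_div, div_le_div_iff₀ hm0 hδ]
      calc Real.log K * Real.log (1 + y) * δ = Real.log K * (δ * Real.log (1 + y)) := by ring
        _ ≤ Real.log K * Real.log m := mul_le_mul_of_nonneg_left h1 hlK
        _ ≤ y * Real.log m := mul_le_mul_of_nonneg_right (by linarith) hm0.le
    have h5 : gr m K * Real.log (1 + y) =
        Real.log (1 + y) + Real.log K / Real.log m * Real.log (1 + y) := by
      unfold gr; ring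
    rw [h5]
    linarith
  have hfin : gr m K * (1 + Real.log (gr m K)) ≤ 5 * (1 + 1 / δ) * y := by
    have h6 : gr m K * (1 + Real.log (gr m K)) ≤ gr m K * (2 + Real.log (1 + y)) :=
      mul_le_mul_of_nonneg_left (by linarith) (by linarith)
    have h7 : 0 ≤ y / δ := by positivity
    have h8 : 5 * (1 + 1 / δ) * y = 5 * y + 5 * (y / δ) := by ring
    rw [h8]
    nlinarith
  unfold num
  rw [Real.rpow_def_of_pos (by linarith)]
  apply Real.exp_le_exp.2
  calc C * (gr m K * (1 + Real.log (gr m K))) ≤ C * (5 * (1 + 1 / δ) * y) :=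
        mul_le_mul_of_nonneg_left hfin hC
    _ = Real.log (2 * K) * (5 * C * (1 + 1 / δ)) := by rw [hy]; ring

end Pool.Agent.P8H91.GR
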