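import Pool.Agent.P8H91.GR.Conv

/-!
# The energy step
-/

set_option autoImplicit false

namespace Pool.Agent.P8H91.GR

open Finset Pool.Agent.Y359.LE
open scoped Pointwise

theorem En_young' (A : Finset ℤ) (n m : ℕ) : En A (n + m) ≤ A.card ^ (2 * n) * En A m := by
  set X := sm A n with hX
  set Z := sm A n + sm A m with hZ
  rw [En_eq A (n + m) Z (sm_add A n m)]
  have h1 : ∀ z, (rep A (n + m) z) ^ 2 ≤
      A.card ^ n * ∑ w ∈ X, rep A n w * rep A m (z - w) ^ 2 := by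
    intro z
    rw [rep_add A n m X (Finset.Subset.refl _), ← rep_total A n X (Finset.Subset.refl _)]
    apply sum_sq_le_sum_mul_sum_of_sq_eq_mul
    · intro w _; exact Nat.zero_le _
    · intro w _; exact Nat.zero_le _
    · intro w _; ring
  calc ∑ z ∈ Z, (rep A (n + m) z) ^ 2
      ≤ ∑ z ∈ Z, A.card ^ n * ∑ w ∈ X, rep A n w * rep A m (z - w) ^ 2 :=
        Finset.sum_le_sum fun z _ => h1 z
    _ = A.card ^ n * ∑ w ∈ X, rep A n w * ∑ z ∈ Z, rep A m (z - w) ^ 2 := by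
        rw [← Finset.mul_sum, Finset.sum_comm]
        congr 1
        refine Finset.sum_congr rfl fun w _ => ?_
        rw [Finset.mul_sum]
    _ = A.card ^ n * ∑ w ∈ X, rep A n w * En A m := by
        congr 1
        refine Finset.sum_congr rfl fun w hw => ?_
        congr 1
        rw [En_eq A m (Z.image fun z => z - w), Finset.sum_image]
        · intro a _ b _ hab
          have : a - w = b - w := hab
          linarith
        · intro y hy
          exact mem_image.2 ⟨w + y, Finset.add_mem_add hw hy, by ring⟩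
    _ = A.card ^ (2 * n) * En A m := by
        rw [← Finset.sum_mul, rep_total A n X (Finset.Subset.refl _)]
        ring

theorem En_pos {A : Finset ℤ} (hA : A.Nonempty) (m : ℕ) : 0 < En A m := by
  obtain ⟨a, ha⟩ := hA
  unfold En
  refine Finset.card_pos.2 ⟨(fun _ => a, fun _ => a), ?_⟩
  rw [mem_filter, mem_product, Fintype.mem_piFinset]
  exact ⟨⟨fun _ => ha, fun _ => ha⟩, rfl⟩

/-- a step where the energy grows slowly -/
theorem slow_en (B : Finset ℤ) (J : ℕ) (hJ : 1 ≤ J) (κ : ℝ) (hκ : 1 ≤ κ)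
    (h : (B.card : ℝ) ^ (2 * 2 ^ J) ≤ κ ^ J * B.card * En B (2 ^ J)) (hB : B.Nonempty) :
    ∃ j < J, (B.card : ℝ) ^ (2 * 2 ^ j) * En B (2 ^ j) ≤ κ * En B (2 ^ j + 2 ^ j) := by
  by_contra hcon
  push Not at hcon
  have hB1 : (1 : ℝ) ≤ B.card := by exact_mod_cast hB.card_pos
  have hind : ∀ j ≤ J, κ ^ j * En B (2 ^ j) * B.card ≤ (B.card : ℝ) ^ (2 * 2 ^ j) ∧
      (1 ≤ j → κ ^ j * En B (2 ^ j) * B.card < (B.card : ℝ) ^ (2 * 2 ^ j)) := by
    intro j
    induction j with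
    | zero =>
      intro _
      refine ⟨?_, fun h => absurd h (by norm_num)⟩
      rw [show (2 : ℕ) ^ 0 = 1 from rfl, En_one, pow_zero]
      simp only [one_mul, mul_one]
      rw [pow_two]
    | succ j ih =>
      intro hj
      have h1 := hcon j (by omega)
      have h2 := (ih (by omega)).1
      have h3 : κ ^ (j + 1) * En B (2 ^ (j + 1)) * B.card < (B.card : ℝ) ^ (2 * 2 ^ (j + 1)) := by
        have e1 : 2 ^ (j + 1) = 2 ^ j + 2 ^ j := by rw [pow_succ]; ring
        have hκj : 0 < κ ^ j * (B.card : ℝ) := by positivity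
        calc κ ^ (j + 1) * En B (2 ^ (j + 1)) * B.card
            = (κ ^ j * B.card) * (κ * En B (2 ^ j + 2 ^ j)) := by rw [e1]; ring
          _ < (κ ^ j * B.card) * ((B.card : ℝ) ^ (2 * 2 ^ j) * En B (2 ^ j)) :=
              mul_lt_mul_of_pos_left h1 hκj
          _ = (κ ^ j * En B (2 ^ j) * B.card) * (B.card : ℝ) ^ (2 * 2 ^ j) := by ring
          _ ≤ (B.card : ℝ) ^ (2 * 2 ^ j) * (B.card : ℝ) ^ (2 * 2 ^ j) :=
              mul_le_mul_of_nonneg_right h2 (by positivity)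
          _ = (B.card : ℝ) ^ (2 * 2 ^ (j + 1)) := by rw [← pow_add, e1]; ring
      exact ⟨h3.le, fun _ => h3⟩
  have h1 := (hind J le_rfl).2 hJ
  have h2 : κ ^ J * B.card * En B (2 ^ J) = κ ^ J * En B (2 ^ J) * B.card := by ring
  linarith

theorem normalised_mono (B : Finset ℤ) (n m : ℕ) (h : n ≤ m) :
    (En B m : ℝ) * (B.card : ℝ) ^ (2 * n) ≤ (B.card : ℝ) ^ (2 * m) * En B n := by
  obtain ⟨d, hd⟩ := Nat.exists_eq_add_of_le' h
  have h1 := En_young' B d n
  rw [← hd] at h1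
  have h2 : (En B m : ℝ) ≤ (B.card : ℝ) ^ (2 * d) * En B n := by
    exact_mod_cast h1
  calc (En B m : ℝ) * (B.card : ℝ) ^ (2 * n)
      ≤ ((B.card : ℝ) ^ (2 * d) * En B n) * (B.card : ℝ) ^ (2 * n) :=
        mul_le_mul_of_nonneg_right h2 (by positivity)
    _ = (B.card : ℝ) ^ (2 * d + 2 * n) * En B n := by rw [pow_add]; ring
    _ = _ := by
        have e : 2 * d + 2 * n = 2 * m := by omega
        rw [e]

/-- the number of representations of one integer is at most the energy -/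
theorem rep_le_En (A : Finset ℤ) (m : ℕ) (z : ℤ) : rep A (m + m) z ≤ En A m := by
  rw [rep_add A m m (sm A m) (Finset.Subset.refl _)]
  have h1 : (∑ w ∈ sm A m, rep A m w * rep A m (z - w)) ^ 2 ≤ En A m ^ 2 := by
    refine (sum_mul_sq_le_sq_mul_sq (R := ℕ) (sm A m) (fun w => rep A m w)
      (fun w => rep A m (z - w))).trans ?_
    rw [sq (En A m)]
    refine Nat.mul_le_mul (le_of_eq (En_eq A m _ (Finset.Subset.refl _)).symm) ?_
    rw [En_eq A m (sm A m ∪ (sm A m).image fun w => z - w) subset_union_left]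
    rw [← Finset.sum_image (f := fun y => rep A m y ^ 2) (g := fun w => z - w)
      (s := sm A m) (fun a _ b _ hab => by
        have : z - a = z - b := hab
        linarith)]
    exact Finset.sum_le_sum_of_subset subset_union_right
  exact (Nat.pow_le_pow_iff_left (by norm_num)).1 h1

/-- Plünnecke -/
theorem add_of_sub (B : Finset ℤ) (hB : B.Nonempty) (R : ℝ)
    (h : ((B - B).card : ℝ) ≤ R * B.card) : ((B + B).card : ℝ) ≤ R ^ 2 * B.card := by
  have h1 := Finset.pluennecke_ruzsa_inequality_nsmul_sub hB B 2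
  have hc : (0 : ℝ) < B.card := by exact_mod_cast hB.card_pos
  have h2 : (((2 • B).card : ℚ≥0) : ℝ) ≤
      ((((B - B).card / B.card : ℚ≥0) ^ 2 * B.card : ℚ≥0) : ℝ) := by
    exact_mod_cast h1
  push_cast at h2
  rw [two_nsmul] at h2
  refine h2.trans (mul_le_mul_of_nonneg_right ?_ hc.le)
  apply pow_le_pow_left₀ (by positivity)
  rw [div_le_iff₀ hc]
  exact h

/-- one step -/
theorem core (A : Finset ℤ) (hA : A.Nonempty) (n : ℕ) (κ : ℝ) (hκ : 1 ≤ κ)
    (hE : (A.card : ℝ) ^ (2 * (n + 1)) * En A (n + 1) ≤ κ * En A ((n + 1) + (n + 1))) :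
    ∃ B : Finset ℤ, B.Nonempty ∧ ((B + B).card : ℝ) ≤ (2 ^ 22 * (2 ^ 33 * κ ^ 8) ^ 10) ^ 2 * B.card ∧
      (B.card : ℝ) * En A (n + 1) ≤ 64 * κ * (A.card : ℝ) ^ (2 * (n + 1)) ∧
      (A.card : ℝ) ^ (n + 1) ≤ 2 ^ 47 * κ ^ 11 * (∑ z ∈ B, rep A (n + 1) z : ℕ) := by
  set m := n + 1 with hm
  set X := sm A m with hX
  set a : ℝ := (A.card : ℝ) ^ m with ha
  set E : ℝ := (En A m : ℝ) with hEdef
  have hκ0 : 0 < κ := by linarith
  have hAc : (0 : ℝ) < A.card := by exact_mod_cast hA.card_pos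
  have ha0 : 0 < a := by positivity
  have hE0 : 0 < E := by
    rw [hEdef]
    exact_mod_cast En_pos hA m
  have h1 : ∀ Y : Finset ℤ, ∑ z ∈ Y, (rep A m z : ℝ) ≤ a := by
    intro Y
    have h2 := rep_total A m (X ∪ Y) subset_union_left
    have h3 : ∑ z ∈ Y, rep A m z ≤ A.card ^ m := by
      rw [← h2]
      exact Finset.sum_le_sum_of_subset subset_union_right
    rw [ha]
    exact_mod_cast h3
  have h2 : ∀ Y : Finset ℤ, ∑ z ∈ Y, (rep A m z : ℝ) ^ 2 ≤ E := by
    intro Y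
    have h3 : ∑ z ∈ Y, rep A m z ^ 2 ≤ En A m := by
      rw [En_eq A m (X ∪ Y) subset_union_left]
      exact Finset.sum_le_sum_of_subset subset_union_right
    rw [hEdef]
    exact_mod_cast h3
  have h3 : a ^ 2 * E ≤
      κ * ∑ z ∈ X + X, (∑ w ∈ X, (rep A m w : ℝ) * (rep A m (z - w) : ℝ)) ^ 2 := by
    rw [En_double] at hE
    push_cast at hE
    rw [ha, ← pow_mul, mul_comm m 2]
    exact hE
  obtain ⟨B, hBX, hB1, hB2, hB3⟩ := three (fun z => (rep A m z : ℝ)) (fun z => Nat.cast_nonneg _)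
    a E κ ha0 hE0 hκ h1 h2 X (fun z hz => rep_ne (by exact_mod_cast hz)) h3
  set p : ℝ := (B.card : ℝ) with hp
  set eB : ℝ := (B.addEnergy B : ℝ) with heB
  have heB0 : 0 < eB := by
    by_contra hcon
    have h4 : eB = 0 := le_antisymm (not_lt.1 hcon) (by positivity)
    rw [h4, mul_zero] at hB2
    have : 0 < a ^ 6 := by positivity
    linarith
  have hBne : B.Nonempty := by
    have h4 : 0 < B.addEnergy B := by
      rw [heB] at heB0
      exact_mod_cast heB0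
    exact Finset.addEnergy_self_pos_iff.1 h4
  have hp0 : 0 < p := by
    rw [hp]
    exact_mod_cast hBne.card_pos
  have hcube : eB ≤ p ^ 3 := by
    rw [heB, hp]
    exact_mod_cast energy_le_cube B
  have hbsg : p ^ 3 ≤ (2 ^ 33 * κ ^ 8) * eB := by
    have h4 : (p * E) ^ 3 ≤ (64 * κ * a ^ 2) ^ 3 :=
      pow_le_pow_left₀ (by positivity) hB3 3
    have h5 : p ^ 3 * E ^ 3 ≤ (2 ^ 33 * κ ^ 8) * eB * E ^ 3 := by
      calc p ^ 3 * E ^ 3 = (p * E) ^ 3 := by ring
        _ ≤ (64 * κ * a ^ 2) ^ 3 := h4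
        _ = 2 ^ 18 * κ ^ 3 * a ^ 6 := by ring
        _ ≤ 2 ^ 18 * κ ^ 3 * (2 ^ 15 * κ ^ 5 * E ^ 3 * eB) :=
            mul_le_mul_of_nonneg_left hB2 (by positivity)
        _ = _ := by ring
    exact le_of_mul_le_mul_right h5 (by positivity)
  obtain ⟨B', hB'B, hB'ne, hcard, hdiff⟩ :=
    Pool.Agent.H217R3.AK.bsg B hBne (2 ^ 33 * κ ^ 8) (by positivity) hbsg
  set p' : ℝ := (B'.card : ℝ) with hp'
  have hp'0 : 0 < p' := by
    rw [hp']
    exact_mod_cast hB'ne.card_pos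
  have hp'p : p' ≤ p := by
    rw [hp, hp']
    exact_mod_cast Finset.card_le_card hB'B
  refine ⟨B', hB'ne, ?_, ?_, ?_⟩
  · exact add_of_sub B' hB'ne _ hdiff
  · calc p' * E ≤ p * E := mul_le_mul_of_nonneg_right hp'p hE0.le
      _ ≤ 64 * κ * a ^ 2 := hB3
      _ = 64 * κ * (A.card : ℝ) ^ (2 * m) := by rw [ha]; ring
  · -- the mass
    set μ : ℝ := ((∑ z ∈ B', rep A m z : ℕ) : ℝ) with hμ
    have h4 : a ^ 2 ≤ 2 ^ 5 * κ ^ 2 * E * p := by
      have h5 : (a ^ 2) ^ 3 ≤ (2 ^ 5 * κ ^ 2 * E * p) ^ 3 := by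
        calc (a ^ 2) ^ 3 = a ^ 6 := by ring
          _ ≤ 2 ^ 15 * κ ^ 5 * E ^ 3 * eB := hB2
          _ ≤ 2 ^ 15 * κ ^ 5 * E ^ 3 * p ^ 3 :=
              mul_le_mul_of_nonneg_left hcube (by positivity)
          _ ≤ 2 ^ 15 * κ ^ 6 * E ^ 3 * p ^ 3 := by
              have h6 : κ ^ 5 ≤ κ ^ 6 := pow_le_pow_right₀ hκ (by norm_num)
              gcongr
          _ = (2 ^ 5 * κ ^ 2 * E * p) ^ 3 := by ring
      exact le_of_pow_le_pow_left₀ (by norm_num) (by positivity) h5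
    have h5 : E * p' ≤ 64 * κ * a * μ := by
      rw [hμ]
      push_cast
      rw [Finset.mul_sum]
      calc E * p' = ∑ _z ∈ B', E := by rw [Finset.sum_const, nsmul_eq_mul]; ring
        _ ≤ _ := Finset.sum_le_sum fun z hz => hB1 z (hB'B hz)
    have h6 : a * a ≤ (2 ^ 47 * κ ^ 11 * μ) * a := by
      calc a * a = a ^ 2 := by ring
        _ ≤ 2 ^ 5 * κ ^ 2 * E * p := h4
        _ ≤ 2 ^ 5 * κ ^ 2 * E * (8 * (2 ^ 33 * κ ^ 8) * p') :=
            mul_le_mul_of_nonneg_left hcard (by positivity)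
        _ = 2 ^ 41 * κ ^ 10 * (E * p') := by ring
        _ ≤ 2 ^ 41 * κ ^ 10 * (64 * κ * a * μ) :=
            mul_le_mul_of_nonneg_left h5 (by positivity)
        _ = _ := by ring
    exact le_of_mul_le_mul_right h6 ha0

end Pool.Agent.P8H91.GR
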