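import Pool.Agent.P8H91.GR.Cst
import Pool.Agent.H112R2.FinalGap
import Pool.Agent.N291.SPC.SHRB

/-!
# Covering by proper progressions of prescribed size
-/

set_option autoImplicit false

namespace Pool.Agent.P8H91.GR

open Finset
open scoped Pointwise

/-- `P` is a proper generalised arithmetic progression `{∑ c_i v_i : |c_i| ≤ L_i}` of rank `d ≤ D`
and size `∏ (2 L_i + 1) ≤ V`. -/
def GAP (D V : ℝ) (P : Set ℤ) : Prop :=
  ∃ (d : ℕ) (v : Fin d → ℤ) (L : Fin d → ℕ), (d : ℝ) ≤ D ∧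
    (∀ a b : Fin d → ℤ, (∀ i, |a i| ≤ L i) → (∀ i, |b i| ≤ L i) →
      ∑ i, a i * v i = ∑ i, b i * v i → a = b) ∧
    ((∏ i, (2 * L i + 1) : ℕ) : ℝ) ≤ V ∧
    P = {g | ∃ x : Fin d → ℤ, (∀ i, |x i| ≤ L i) ∧ g = ∑ i, x i * v i}

/-- `A` is covered by at most `M` translates of a proper generalised arithmetic progression of rank
at most `D` and size at most `V`. -/
def Cov (D V M : ℝ) (A : Finset ℤ) : Prop :=
  ∃ (P : Set ℤ) (T : Finset ℤ), GAP D V P ∧ (T.card : ℝ) ≤ M ∧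
    ∀ a ∈ A, ∃ t ∈ T, ∃ p ∈ P, a = t + p

theorem GAP.mono {D D' V V' : ℝ} (hD : D ≤ D') (hV : V ≤ V') {P : Set ℤ} (h : GAP D V P) :
    GAP D' V' P := by
  obtain ⟨d, v, L, hd, hp, hv, hP⟩ := h
  exact ⟨d, v, L, hd.trans hD, hp, hv.trans hV, hP⟩

theorem Cov.mono {D D' V V' M M' : ℝ} (hD : D ≤ D') (hV : V ≤ V')
    (hM : M ≤ M') {A A' : Finset ℤ} (hA : A' ⊆ A) (h : Cov D V M A) : Cov D' V' M' A' := by
  obtain ⟨P, T, hP, hT, hc⟩ := h
  exact ⟨P, T, hP.mono hD hV, hT.trans hM, fun a ha => hc a (hA ha)⟩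

theorem tf (k : ℕ) (x : ℤ) (hk : k ≠ 0) (h : k • x = 0) : x = 0 := by
  rw [nsmul_eq_mul] at h
  rcases mul_eq_zero.1 h with h | h
  · exact absurd (by exact_mod_cast h) hk
  · exact h

/-- the main covering step -/
theorem engine {B L K' : ℝ} (hB : 1 ≤ B) (hL : 1 ≤ L) (G : Finset ℤ) (hG : G.Nonempty)
    (hGG : ((G + G).card : ℝ) ≤ K' * G.card) (hlog : Real.log (2 * K') ≤ B * L) :
    Cov (300 * B * L) G.card (num (cM B) L) G ∧
    ∀ (N : ℕ) (V : ℝ), 1 ≤ N → 1 ≤ V → (G.card : ℝ) ≤ V * N →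
      Cov (300 * B * L) N (V * num (cM B) L) G := by
  have hG0 : (0 : ℝ) < G.card := by exact_mod_cast hG.card_pos
  have hK' : 1 ≤ K' := by
    have h1 : (G.card : ℝ) ≤ (G + G).card := by
      exact_mod_cast Finset.card_le_card_add_right hG
    nlinarith
  obtain ⟨k, v, Ls, T, hk, hp, hv, hT, hc⟩ := H112.near_pfr_gap tf hG hGG
  obtain ⟨hk2, hT2⟩ := consts hB hL hK' hlog hk hT
  have h9 : (1 : ℝ) ≤ 9 ^ k := one_le_pow₀ (by norm_num)
  have hT0 : (0 : ℝ) ≤ T.card := Nat.cast_nonneg _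
  simp only [smul_eq_mul] at hp hc
  constructor
  · refine ⟨_, T, ⟨k, v, Ls, hk2, hp, by exact_mod_cast hv, rfl⟩, ?_, ?_⟩
    · refine le_trans ?_ hT2
      nlinarith
    · intro a ha
      obtain ⟨t, ht, c, hcc, e⟩ := hc a ha
      exact ⟨t, ht, ∑ i, c i * v i, ⟨c, hcc, rfl⟩, e⟩
  · intro N V hN hV hGV
    obtain ⟨L', hL', hN', S, hS, hScard⟩ := Pool.Agent.N291.SPC.SHRB.t_SHRB k Ls N hN
    classical
    set S' : Finset ℤ := S.image fun s => ∑ i, s i * v i with hS'
    refine ⟨_, T + S', ⟨k, v, L', hk2, ?_, by exact_mod_cast hN', rfl⟩, ?_, ?_⟩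
    · intro a b ha hb hab
      refine hp a b (fun i => (ha i).trans ?_) (fun i => (hb i).trans ?_) hab
      · exact_mod_cast hL' i
      · exact_mod_cast hL' i
    · have hN0 : (0 : ℝ) < N := by exact_mod_cast hN
      have h1 : ((T + S').card : ℝ) ≤ T.card * S.card := by
        have h2 : (T + S').card ≤ T.card * S'.card := Finset.card_add_le
        have h3 : S'.card ≤ S.card := Finset.card_image_le
        exact_mod_cast h2.trans (Nat.mul_le_mul_left _ h3)
      have h2 : (S.card : ℝ) * N ≤ 9 ^ k * (V * N) := by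
        have h3 : (S.card : ℝ) * N ≤ 9 ^ k * (max (∏ i, (2 * Ls i + 1)) N : ℕ) := by
          exact_mod_cast hScard
        refine h3.trans (mul_le_mul_of_nonneg_left ?_ (by positivity))
        rw [Nat.cast_max]
        apply max_le
        · refine le_trans ?_ hGV
          exact_mod_cast hv
        · nlinarith
      have h3 : (S.card : ℝ) ≤ 9 ^ k * V := by
        have h4 : (S.card : ℝ) * N ≤ (9 ^ k * V) * N := by linarith
        exact le_of_mul_le_mul_right h4 hN0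
      calc ((T + S').card : ℝ) ≤ T.card * S.card := h1
        _ ≤ T.card * (9 ^ k * V) := mul_le_mul_of_nonneg_left h3 hT0
        _ = V * (9 ^ k * T.card) := by ring
        _ ≤ V * num (cM B) L := mul_le_mul_of_nonneg_left hT2 (by linarith)
    · intro a ha
      obtain ⟨t, ht, c, hcc, e⟩ := hc a ha
      obtain ⟨s, hs, y, hy, e2⟩ := hS c (fun i => by
        have := hcc i
        have h2 : (0 : ℤ) ≤ Ls i := by positivity
        linarith)
      refine ⟨t + ∑ i, s i * v i, Finset.add_mem_add ht (mem_image_of_mem _ hs),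
        ∑ i, y i * v i, ⟨y, hy, rfl⟩, ?_⟩
      rw [e, e2, add_assoc, ← Finset.sum_add_distrib]
      congr 1
      refine Finset.sum_congr rfl fun i _ => ?_
      rw [Pi.add_apply, add_mul]

end Pool.Agent.P8H91.GR
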