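import Pool.Agent.P8H91.GR.CovC

/-!
# The final theorem
-/

set_option autoImplicit false

namespace Pool.Agent.P8H91.GR

open Finset Pool.Agent.Y359.LE
open scoped Pointwise

/-- `log K / log log K` -/
noncomputable def rk (K : ℝ) : ℝ := (2 + Real.log K) / Real.log (2 + Real.log K)

theorem Slow.mono {m : ℕ} {R R' : ℝ} (hR : R ≤ R') {A : Finset ℤ} (h : Slow m R A) :
    Slow m R' A := by
  obtain ⟨A', h1, h2, h3⟩ := h
  exact ⟨A', h1, h2.trans (mul_le_mul_of_nonneg_right hR (Nat.cast_nonneg _)),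
    h3.trans (mul_le_mul_of_nonneg_right hR (Nat.cast_nonneg _))⟩

theorem Rich.mono {m : ℕ} {R R' : ℝ} (hR : R ≤ R') {A : Finset ℤ} (h : Rich m R A) :
    Rich m R' A := by
  obtain ⟨A', h1, h2, h3⟩ := h
  exact ⟨A', h1, h2.trans (mul_le_mul_of_nonneg_right hR (Nat.cast_nonneg _)),
    h3.trans (mul_le_mul_of_nonneg_right hR (Nat.cast_nonneg _))⟩

section numeric

variable {K : ℝ} (hK : 1 ≤ K)

include hK

lemma ell_ge : 2 ≤ 2 + Real.log K := by
  have := Real.log_nonneg hK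
  linarith

lemma logell_ge : 1 / 2 ≤ Real.log (2 + Real.log K) := by
  have h1 := Real.log_le_log (by norm_num : (0 : ℝ) < 2) (ell_ge hK)
  have := Real.log_two_gt_d9
  linarith

lemma rk_ge : 1 ≤ rk K := by
  have h1 := ell_ge hK
  have h2 := logell_ge hK
  unfold rk
  rw [le_div_iff₀ (by linarith)]
  have := Real.log_le_sub_one_of_pos (show 0 < 2 + Real.log K by linarith)
  linarith

lemma rk_le : rk K ≤ 2 * (2 + Real.log K) := by
  have h1 := ell_ge hK
  have h2 := logell_ge hK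
  unfold rk
  rw [div_le_iff₀ (by linarith)]
  nlinarith

lemma rk_mul : rk K * Real.log (2 + Real.log K) = 2 + Real.log K := by
  have h2 := logell_ge hK
  unfold rk
  rw [div_mul_cancel₀]
  linarith

lemma exp_ell (c : ℝ) : Real.exp (c * (2 + Real.log K)) = Real.exp (2 * c) * K ^ c := by
  rw [Real.rpow_def_of_pos (by linarith), ← Real.exp_add]
  congr 1
  ring

lemma log_R {C₀ : ℝ} (hC₀ : 1 ≤ C₀) : Real.log (C₀ * K ^ C₀) ≤ C₀ * (2 + Real.log K) := by
  have hK0 : 0 < K := by linarith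
  have hlK := Real.log_nonneg hK
  rw [Real.log_mul (by linarith) (Real.rpow_pos_of_pos hK0 _).ne', Real.log_rpow hK0]
  have := Real.log_le_sub_one_of_pos (show 0 < C₀ by linarith)
  nlinarith

lemma R_ge {C₀ : ℝ} (hC₀ : 1 ≤ C₀) : 1 ≤ C₀ * K ^ C₀ := by
  have := Real.one_le_rpow hK (show 0 ≤ C₀ by linarith)
  nlinarith

/-- the growth exponent for large `m` -/
lemma gr_le {C₀ δ : ℝ} (hC₀ : 1 ≤ C₀) (hδ : 0 < δ) {m : ℕ} (hm : 2 ≤ m)
    (h : (2 + Real.log K) ^ δ ≤ m) : gr m (C₀ * K ^ C₀) ≤ (1 + C₀ / δ) * rk K := by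
  have h1 := ell_ge hK
  have h2 := logell_ge hK
  have h3 := rk_ge hK
  have h4 : δ * Real.log (2 + Real.log K) ≤ Real.log m := by
    have h5 := Real.log_le_log (Real.rpow_pos_of_pos (by linarith) _) h
    rwa [Real.log_rpow (by linarith)] at h5
  have hm0 : 0 < Real.log m := Real.log_pos (by exact_mod_cast (by omega : 1 < m))
  have h5 : Real.log (C₀ * K ^ C₀) / Real.log m ≤ C₀ / δ * rk K := by
    rw [div_le_iff₀ hm0]
    have h6 : C₀ / δ * rk K * (δ * Real.log (2 + Real.log K)) = C₀ * (2 + Real.log K) := by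
      rw [← rk_mul hK]
      field_simp
      rw [rk_mul hK]
    calc Real.log (C₀ * K ^ C₀) ≤ C₀ * (2 + Real.log K) := log_R hK hC₀
      _ = C₀ / δ * rk K * (δ * Real.log (2 + Real.log K)) := h6.symm
      _ ≤ C₀ / δ * rk K * Real.log m := mul_le_mul_of_nonneg_left h4 (by positivity)
  unfold gr
  linarith

lemma num_le {C C₀ δ : ℝ} (hC : 0 ≤ C) (hC₀ : 1 ≤ C₀) (hδ : 0 < δ) {m : ℕ} (hm : 2 ≤ m)
    (h : (2 + Real.log K) ^ δ ≤ m) :
    num C (gr m (C₀ * K ^ C₀)) ≤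
      Real.exp (C * ((1 + C₀ / δ) * (5 + 2 * Real.log (1 + C₀ / δ))) * (2 + Real.log K)) := by
  have h1 := ell_ge hK
  have h2 := logell_ge hK
  have h3 := rk_ge hK
  have h4 := rk_le hK
  set q : ℝ := 1 + C₀ / δ with hq
  have hq1 : 1 ≤ q := by
    have : 0 ≤ C₀ / δ := by positivity
    linarith
  have hlq : 0 ≤ Real.log q := Real.log_nonneg hq1
  set L := gr m (C₀ * K ^ C₀) with hL
  have hL1 : 1 ≤ L := gr_ge hm (R_ge hK hC₀)
  have hL2 : L ≤ q * rk K := gr_le hK hC₀ hδ hm h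
  have hlogrk : Real.log (rk K) ≤ 1 + Real.log (2 + Real.log K) := by
    have h5 := Real.log_le_log (by linarith) h4
    rw [Real.log_mul (by norm_num) (by linarith)] at h5
    have := Real.log_two_lt_d9
    linarith
  have hlogL : Real.log L ≤ Real.log q + (1 + Real.log (2 + Real.log K)) := by
    have h5 := Real.log_le_log (by linarith) hL2
    rw [Real.log_mul (by linarith) (by linarith)] at h5
    linarith
  have h6 : L * (1 + Real.log L) ≤ q * (5 + 2 * Real.log q) * (2 + Real.log K) := by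
    have hlL : 0 ≤ Real.log L := Real.log_nonneg hL1
    calc L * (1 + Real.log L)
        ≤ (q * rk K) * (1 + (Real.log q + (1 + Real.log (2 + Real.log K)))) :=
          mul_le_mul hL2 (by linarith) (by linarith) (by positivity)
      _ = q * (rk K * (2 + Real.log q) + rk K * Real.log (2 + Real.log K)) := by ring
      _ = q * (rk K * (2 + Real.log q) + (2 + Real.log K)) := by rw [rk_mul hK]
      _ ≤ q * ((2 * (2 + Real.log K)) * (2 + Real.log q) + (2 + Real.log K)) := by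
          apply mul_le_mul_of_nonneg_left _ (by linarith)
          have := mul_le_mul_of_nonneg_right h4 (by linarith : 0 ≤ 2 + Real.log q)
          linarith
      _ = _ := by ring
  unfold num
  apply Real.exp_le_exp.2
  rw [mul_assoc C]
  exact mul_le_mul_of_nonneg_left h6 hC

lemma pow_le_C {C₁ a b : ℝ} (ha : 0 ≤ a) (h1 : a ≤ C₁) (h2 : b ≤ C₁) :
    a * K ^ b ≤ C₁ * K ^ C₁ := by
  have hK0 : 0 < K := by linarith
  exact mul_le_mul h1 (Real.rpow_le_rpow_of_exponent_le hK h2) (Real.rpow_pos_of_pos hK0 _).le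
    (ha.trans h1)

end numeric

theorem part_one : ∃ C : ℝ, 1 ≤ C ∧ ∀ (A : Finset ℤ) (m : ℕ) (R : ℝ), A.Nonempty → 2 ≤ m →
    1 ≤ R →
    (((sm A m).card : ℝ) ≤ R * A.card →
      Cov (C * gr m R) (R * A.card) (num C (gr m R)) A ∧
      Cov (C * gr m R) A.card (R * num C (gr m R)) A) ∧
    (((A.card : ℝ) ^ (2 * m - 1) ≤ R * En A m ∨
        ∃ z : ℤ, (A.card : ℝ) ^ (2 * m - 1) ≤ R * rep A (m + m) z) →
      Dense (C * gr m R) (R * Real.exp (C * gr m R) * A.card) (num C (gr m R)) A ∧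
      Dense (C * gr m R) A.card (R * num C (gr m R)) A) ∧
    (∀ K : ℝ, 1 ≤ K → ((A + A).card : ℝ) ≤ K * A.card → Rich m R A →
      Cov (C * gr m R) A.card (K * R ^ 2 * num C (gr m R)) A) := by
  have h1410 : 0 ≤ cM 1410 := cM_nonneg (by norm_num)
  have h2 : 0 ≤ cM 2 := cM_nonneg (by norm_num)
  have hcR : 0 ≤ cR := by unfold cR; linarith
  refine ⟨423000 + cR + cM 2 + (100 + cM 1410), by linarith, ?_⟩
  intro A m R hA hm hR
  have hL := gr_ge hm hR
  have hL0 : 0 ≤ gr m R := by linarith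
  have hR0 : 0 ≤ R := by linarith
  have hnA : (0 : ℝ) ≤ A.card := Nat.cast_nonneg _
  refine ⟨?_, ?_, ?_⟩
  · intro h
    obtain ⟨h3, h4⟩ := growth A hA m R hm hR h
    refine ⟨h3.mono ?_ le_rfl (num_mono (by linarith) hL) (Finset.Subset.refl _),
      h4.mono ?_ le_rfl (mul_le_mul_of_nonneg_left (num_mono (by linarith) hL) hR0)
        (Finset.Subset.refl _)⟩
    · exact mul_le_mul_of_nonneg_right (by linarith) hL0
    · exact mul_le_mul_of_nonneg_right (by linarith) hL0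
  · intro h
    have h' : (A.card : ℝ) ^ (2 * m - 1) ≤ R * En A m := by
      rcases h with h | ⟨z, hz⟩
      · exact h
      · refine hz.trans (mul_le_mul_of_nonneg_left ?_ hR0)
        exact_mod_cast rep_le_En A m z
    obtain ⟨h3, h4⟩ := inverse A hA m R hm hR h'
    refine ⟨h3.mono ?_ ?_ (num_mono (by linarith) hL),
      h4.mono ?_ le_rfl (mul_le_mul_of_nonneg_left (num_mono (by linarith) hL) hR0)⟩
    · exact mul_le_mul_of_nonneg_right (by linarith) hL0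
    · apply mul_le_mul_of_nonneg_right _ hnA
      apply mul_le_mul_of_nonneg_left _ hR0
      exact Real.exp_le_exp.2 (mul_le_mul_of_nonneg_right (by linarith) hL0)
    · exact mul_le_mul_of_nonneg_right (by linarith) hL0
  · intro K hK hAA h
    refine (small_doubling A hA m K R hm hK hR hAA h).mono ?_ le_rfl ?_ (Finset.Subset.refl _)
    · exact mul_le_mul_of_nonneg_right (by linarith) hL0
    · exact mul_le_mul_of_nonneg_left (num_mono (by linarith) hL) (by positivity)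

theorem part_two (δ : ℝ) (hδ : 0 < δ) (C₀ : ℝ) (hC₀ : 1 ≤ C₀) : ∃ C₁ : ℝ, 1 ≤ C₁ ∧
    ∀ (A : Finset ℤ) (K : ℝ), A.Nonempty → 1 ≤ K →
      (∀ m : ℕ, 2 ≤ m → (2 + Real.log K) ^ δ ≤ m →
        ((sm A m).card : ℝ) ≤ C₀ * K ^ C₀ * A.card →
          Cov (C₁ * rk K) A.card (C₁ * K ^ C₁) A) ∧
      (∀ m : ℕ, 2 ≤ m → (2 + Real.log K) ^ δ ≤ m → ((A + A).card : ℝ) ≤ K * A.card →
        Rich m (C₀ * K ^ C₀) A → Cov (C₁ * rk K) A.card (C₁ * K ^ C₁) A) ∧
      (∀ m : ℕ, 1 ≤ m → (m : ℝ) ≤ (2 + Real.log K) ^ (1 / δ) →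
        CovC (C₀ * rk K) A.card (C₀ * K ^ C₀) A → Slow m (C₁ * K ^ C₁) A) := by
  have h1410 : 0 ≤ cM 1410 := cM_nonneg (by norm_num)
  have h2 : 0 ≤ cM 2 := cM_nonneg (by norm_num)
  have hcR : 0 ≤ cR := by unfold cR; linarith
  set q : ℝ := 1 + C₀ / δ with hq
  have hq1 : 1 ≤ q := by
    have : 0 ≤ C₀ / δ := by positivity
    linarith
  have hlq : 0 ≤ Real.log q := Real.log_nonneg hq1
  set s : ℝ := q * (5 + 2 * Real.log q) with hs
  have hs0 : 0 ≤ s := by positivity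
  set c₁ : ℝ := cM 2 * s with hc₁
  set c₂ : ℝ := cR * s with hc₂
  have hc₁0 : 0 ≤ c₁ := by positivity
  have hc₂0 : 0 ≤ c₂ := by positivity
  have hC₀0 : 0 ≤ C₀ := by linarith
  set C₁ : ℝ := 423000 * q + C₀ * Real.exp (2 * c₁) + C₀ ^ 2 * Real.exp (2 * c₂) +
    (1 + 2 * C₀ + c₁ + c₂) + C₀ * Real.exp (2 * (C₀ / δ + 4 * C₀)) + C₀ / δ + 4 * C₀ with hC₁
  have t1 : 0 ≤ C₀ * Real.exp (2 * c₁) := by positivity
  have t2 : 0 ≤ C₀ ^ 2 * Real.exp (2 * c₂) := by positivity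
  have t3 : 0 ≤ C₀ * Real.exp (2 * (C₀ / δ + 4 * C₀)) := by positivity
  have t4 : 0 ≤ C₀ / δ := by positivity
  refine ⟨C₁, by linarith, ?_⟩
  intro A K hA hK
  have hK0 : 0 < K := by linarith
  have hR := R_ge hK hC₀
  have hrk := rk_ge hK
  refine ⟨?_, ?_, ?_⟩
  · intro m hm hmδ h
    obtain ⟨-, h4⟩ := growth A hA m (C₀ * K ^ C₀) hm hR h
    refine h4.mono ?_ le_rfl ?_ (Finset.Subset.refl _)
    · calc 600 * gr m (C₀ * K ^ C₀) ≤ 600 * (q * rk K) :=
            mul_le_mul_of_nonneg_left (gr_le hK hC₀ hδ hm hmδ) (by norm_num)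
        _ = (600 * q) * rk K := by ring
        _ ≤ C₁ * rk K := mul_le_mul_of_nonneg_right (by linarith) (by linarith)
    · calc C₀ * K ^ C₀ * num (cM 2) (gr m (C₀ * K ^ C₀))
          ≤ C₀ * K ^ C₀ * Real.exp (c₁ * (2 + Real.log K)) :=
            mul_le_mul_of_nonneg_left (num_le hK h2 hC₀ hδ hm hmδ) (by linarith)
        _ = (C₀ * Real.exp (2 * c₁)) * K ^ (C₀ + c₁) := by
            rw [exp_ell hK, Real.rpow_add hK0]; ring
        _ ≤ C₁ * K ^ C₁ := pow_le_C hK t1 (by linarith) (by linarith)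
  · intro m hm hmδ hAA h
    refine (small_doubling A hA m K (C₀ * K ^ C₀) hm hK hR hAA h).mono ?_ le_rfl ?_
      (Finset.Subset.refl _)
    · calc 423000 * gr m (C₀ * K ^ C₀) ≤ 423000 * (q * rk K) :=
            mul_le_mul_of_nonneg_left (gr_le hK hC₀ hδ hm hmδ) (by norm_num)
        _ = (423000 * q) * rk K := by ring
        _ ≤ C₁ * rk K := mul_le_mul_of_nonneg_right (by linarith) (by linarith)
    · calc K * (C₀ * K ^ C₀) ^ 2 * num cR (gr m (C₀ * K ^ C₀))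
          ≤ K * (C₀ * K ^ C₀) ^ 2 * Real.exp (c₂ * (2 + Real.log K)) :=
            mul_le_mul_of_nonneg_left (num_le hK hcR hC₀ hδ hm hmδ) (by positivity)
        _ = (C₀ ^ 2 * Real.exp (2 * c₂)) * K ^ (1 + C₀ + C₀ + c₂) := by
            rw [exp_ell hK, Real.rpow_add hK0, Real.rpow_add hK0, Real.rpow_add hK0,
              Real.rpow_one]
            ring
        _ ≤ C₁ * K ^ C₁ := pow_le_C hK t2 (by linarith) (by linarith)
  · intro m hm hmδ h
    have h3 := slow_of_covC (V := 1) A hA m hm hR le_rfl (by rw [one_mul]; exact h)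
    refine h3.mono ?_
    have hm1 : (1 : ℝ) ≤ m := by exact_mod_cast hm
    have hlog3 : Real.log 3 ≤ 2 := by
      have := Real.log_le_sub_one_of_pos (show (0 : ℝ) < 3 by norm_num)
      linarith
    have h4 : Real.log (3 * m) ≤ 2 + 1 / δ * Real.log (2 + Real.log K) := by
      have h5 := Real.log_le_log (by linarith) hmδ
      have h6 := ell_ge hK
      rw [Real.log_rpow (by linarith)] at h5
      rw [Real.log_mul (by norm_num) (by linarith)]
      linarith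
    have h5 : C₀ * rk K * Real.log (3 * m) ≤ (C₀ / δ + 4 * C₀) * (2 + Real.log K) := by
      calc C₀ * rk K * Real.log (3 * m)
          ≤ C₀ * rk K * (2 + 1 / δ * Real.log (2 + Real.log K)) :=
            mul_le_mul_of_nonneg_left h4 (by positivity)
        _ = C₀ * 2 * rk K + C₀ / δ * (rk K * Real.log (2 + Real.log K)) := by ring
        _ = C₀ * 2 * rk K + C₀ / δ * (2 + Real.log K) := by rw [rk_mul hK]
        _ ≤ C₀ * 2 * (2 * (2 + Real.log K)) + C₀ / δ * (2 + Real.log K) := by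
            have := mul_le_mul_of_nonneg_left (rk_le hK) (by positivity : 0 ≤ C₀ * 2)
            linarith
        _ = _ := by ring
    calc Real.exp (C₀ * rk K * Real.log (3 * m)) * 1 * (C₀ * K ^ C₀)
        ≤ Real.exp ((C₀ / δ + 4 * C₀) * (2 + Real.log K)) * 1 * (C₀ * K ^ C₀) := by
          apply mul_le_mul_of_nonneg_right _ (by linarith)
          rw [mul_one, mul_one]
          exact Real.exp_le_exp.2 h5
      _ = (C₀ * Real.exp (2 * (C₀ / δ + 4 * C₀))) * K ^ ((C₀ / δ + 4 * C₀) + C₀) := by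
          rw [exp_ell hK, Real.rpow_add hK0 (C₀ / δ + 4 * C₀) C₀]; ring
      _ ≤ C₁ * K ^ C₁ := pow_le_C hK t3 (by linarith) (by linarith)

/-- one scale controls all scales -/
theorem part_three (δ : ℝ) (hδ : 0 < δ) (C₀ : ℝ) (hC₀ : 1 ≤ C₀) : ∃ C₁ : ℝ, 1 ≤ C₁ ∧
    ∀ (A : Finset ℤ) (K : ℝ), A.Nonempty → 1 ≤ K → ((A + A).card : ℝ) ≤ K * A.card →
      ∀ m n : ℕ, 2 ≤ m → (2 + Real.log K) ^ δ ≤ m → 1 ≤ n →
        (n : ℝ) ≤ (2 + Real.log K) ^ (1 / δ) →
        Rich m (C₀ * K ^ C₀) A → Slow n (C₁ * K ^ C₁) A := by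
  obtain ⟨C₁, hC₁, h1⟩ := part_two δ hδ C₀ hC₀
  obtain ⟨C₂, hC₂, h2⟩ := part_two δ hδ C₁ hC₁
  refine ⟨C₂, hC₂, ?_⟩
  intro A K hA hK hAA m n hm hmδ hn hnδ h
  exact (h2 A K hA hK).2.2 n hn hnδ (covC_of_cov ((h1 A K hA hK).2.1 m hm hmδ hAA h))

/-- convex progressions can be replaced by progressions -/
theorem part_four (C₀ : ℝ) (hC₀ : 1 ≤ C₀) : ∃ C₁ : ℝ, 1 ≤ C₁ ∧
    ∀ (A : Finset ℤ) (K : ℝ), A.Nonempty → 1 ≤ K → ((A + A).card : ℝ) ≤ K * A.card →
      CovC (C₀ * rk K) A.card (C₀ * K ^ C₀) A → Cov (C₁ * rk K) A.card (C₁ * K ^ C₁) A := by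
  obtain ⟨C₁, hC₁, h1⟩ := part_two (1 / 2) (by norm_num) C₀ hC₀
  obtain ⟨C₂, hC₂, h2⟩ := part_two (1 / 2) (by norm_num) C₁ hC₁
  refine ⟨C₂, hC₂, ?_⟩
  intro A K hA hK hAA h
  have hl := ell_ge hK
  have hl0 : 0 ≤ 2 + Real.log K := by linarith
  obtain ⟨m, hm1, hm2⟩ : ∃ m : ℕ, 2 + Real.log K ≤ m ∧ (m : ℝ) < 2 + Real.log K + 1 :=
    ⟨⌈2 + Real.log K⌉₊, Nat.le_ceil _, Nat.ceil_lt_add_one hl0⟩
  have hm : 2 ≤ m := by
    have : (2 : ℝ) ≤ m := by linarith
    exact_mod_cast this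
  refine (h2 A K hA hK).2.1 m hm ?_ hAA (rich_of_slow hA (by omega)
    ((h1 A K hA hK).2.2 m (by omega) ?_ h))
  · refine le_trans ?_ hm1
    calc (2 + Real.log K) ^ (1 / 2 : ℝ) ≤ (2 + Real.log K) ^ (1 : ℝ) :=
          Real.rpow_le_rpow_of_exponent_le (by linarith) (by norm_num)
      _ = _ := Real.rpow_one _
  · have e : (1 / (1 / 2 : ℝ)) = ((2 : ℕ) : ℝ) := by norm_num
    rw [e, Real.rpow_natCast]
    nlinarith

end Pool.Agent.P8H91.GR
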