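import Pool.Agent.P8H91.GR.Ener
import Pool.Agent.P8H91.GR.Engine

/-!
# The inverse theorem for the energy
-/

set_option autoImplicit false

namespace Pool.Agent.P8H91.GR

open Finset Pool.Agent.Y359.LE
open scoped Pointwise

/-- `|A ∩ (x + P)| ≥ |A| / M` for a proper generalised arithmetic progression `P` of rank at most
`D` and size at most `V`, and an integer `x`. -/
def Dense (D V M : ℝ) (A : Finset ℤ) : Prop :=
  ∃ (P : Set ℤ) (x : ℤ) (S : Finset ℤ), GAP D V P ∧ S ⊆ A ∧ (∀ s ∈ S, ∃ p ∈ P, s = x + p) ∧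
    (A.card : ℝ) ≤ M * S.card

theorem Dense.mono {D D' V V' M M' : ℝ} (hD : D ≤ D') (hV : V ≤ V')
    (hM : M ≤ M') {A : Finset ℤ} (h : Dense D V M A) : Dense D' V' M' A := by
  obtain ⟨P, x, S, hP, hS, h1, h2⟩ := h
  exact ⟨P, x, S, hP.mono hD hV, hS, h1,
    h2.trans (mul_le_mul_of_nonneg_right hM (Nat.cast_nonneg _))⟩

theorem dense_of_cov {A B : Finset ℤ} (hA : A.Nonempty) {D V M R : ℝ}
    (hM : 0 ≤ M) (hR : 0 ≤ R) (n : ℕ) (hcov : Cov D V M B)
    (h : (A.card : ℝ) ^ (n + 1) ≤ R * (∑ z ∈ B, rep A (n + 1) z : ℕ)) :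
    Dense D V (R * M) A := by
  classical
  obtain ⟨P, T, hP, hT, hc⟩ := hcov
  have hAc : (0 : ℝ) < A.card := by exact_mod_cast hA.card_pos
  have hBne : B.Nonempty := by
    rw [Finset.nonempty_iff_ne_empty]
    rintro rfl
    simp only [Finset.sum_empty, Nat.cast_zero, mul_zero] at h
    have : 0 < (A.card : ℝ) ^ (n + 1) := by positivity
    linarith
  have hTne : T.Nonempty := by
    obtain ⟨b, hb⟩ := hBne
    obtain ⟨t, ht, -⟩ := hc b hb
    exact ⟨t, ht⟩
  set Bt : ℤ → Finset ℤ := fun t => B.filter fun z => ∃ p ∈ P, z = t + p with hBt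
  obtain ⟨t, ht, hmax⟩ := Finset.exists_max_image T (fun t => ∑ z ∈ Bt t, rep A (n + 1) z) hTne
  obtain ⟨w, hw⟩ := popular A n (Bt t) hA
  have h1 : ∑ z ∈ B, rep A (n + 1) z ≤ T.card * ∑ z ∈ Bt t, rep A (n + 1) z := by
    calc ∑ z ∈ B, rep A (n + 1) z
        ≤ ∑ z ∈ B, ∑ t' ∈ T, if ∃ p ∈ P, z = t' + p then rep A (n + 1) z else 0 := by
          refine Finset.sum_le_sum fun z hz => ?_
          obtain ⟨t', ht', p, hp, e⟩ := hc z hz
          have h3 := Finset.single_le_sum
            (f := fun t' => if ∃ p ∈ P, z = t' + p then rep A (n + 1) z else 0)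
            (fun _ _ => Nat.zero_le _) ht'
          simp only [if_pos (show ∃ p ∈ P, z = t' + p from ⟨p, hp, e⟩)] at h3
          exact h3
      _ = ∑ t' ∈ T, ∑ z ∈ Bt t', rep A (n + 1) z := by
          rw [Finset.sum_comm]
          refine Finset.sum_congr rfl fun t' _ => ?_
          rw [hBt, Finset.sum_filter]
      _ ≤ ∑ _t' ∈ T, ∑ z ∈ Bt t, rep A (n + 1) z := Finset.sum_le_sum hmax
      _ = _ := by rw [Finset.sum_const, smul_eq_mul]
  refine ⟨P, t - w, A.filter fun a => a + w ∈ Bt t, hP, Finset.filter_subset _ _, ?_, ?_⟩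
  · intro s hs
    obtain ⟨p, hp, e⟩ := (mem_filter.1 (mem_filter.1 hs).2).2
    exact ⟨p, hp, by linarith⟩
  · set σ : ℝ := ((A.filter fun a => a + w ∈ Bt t).card : ℝ) with hσ
    have h2 : ((∑ z ∈ B, rep A (n + 1) z : ℕ) : ℝ) ≤ M * ((A.card : ℝ) ^ n * σ) := by
      have h3 : ((∑ z ∈ B, rep A (n + 1) z : ℕ) : ℝ) ≤
          T.card * ((∑ z ∈ Bt t, rep A (n + 1) z : ℕ) : ℝ) := by exact_mod_cast h1
      have h4 : ((∑ z ∈ Bt t, rep A (n + 1) z : ℕ) : ℝ) ≤ (A.card : ℝ) ^ n * σ := by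
        rw [hσ]
        exact_mod_cast hw
      calc ((∑ z ∈ B, rep A (n + 1) z : ℕ) : ℝ) ≤ _ := h3
        _ ≤ T.card * ((A.card : ℝ) ^ n * σ) := mul_le_mul_of_nonneg_left h4 (Nat.cast_nonneg _)
        _ ≤ M * ((A.card : ℝ) ^ n * σ) := mul_le_mul_of_nonneg_right hT (by positivity)
    have h3 : (A.card : ℝ) ^ n * A.card ≤ (A.card : ℝ) ^ n * (R * M * σ) := by
      calc (A.card : ℝ) ^ n * A.card = (A.card : ℝ) ^ (n + 1) := by rw [pow_succ]
        _ ≤ R * (∑ z ∈ B, rep A (n + 1) z : ℕ) := h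
        _ ≤ R * (M * ((A.card : ℝ) ^ n * σ)) := mul_le_mul_of_nonneg_left h2 hR
        _ = _ := by ring
    exact le_of_mul_le_mul_left h3 (by positivity)

/-- The inverse theorem. -/
theorem inverse (A : Finset ℤ) (hA : A.Nonempty) (m : ℕ) (K : ℝ) (hm : 2 ≤ m) (hK : 1 ≤ K)
    (h : (A.card : ℝ) ^ (2 * m - 1) ≤ K * En A m) :
    Dense (423000 * gr m K) (K * Real.exp (6 * gr m K) * A.card)
        (num (94 + cM 1410) (gr m K)) A ∧
      Dense (423000 * gr m K) A.card (K * num (100 + cM 1410) (gr m K)) A := by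
  set L := gr m K with hLdef
  have hL : 1 ≤ L := gr_ge hm hK
  set κ := qq m K with hκdef
  have hκ : 1 ≤ κ := qq_ge hK
  have hκ0 : 0 < κ := by linarith
  have hlogκ : Real.log (2 * κ) ≤ 2 * L := log_qq hm hK
  have hAc : (0 : ℝ) < A.card := by exact_mod_cast hA.card_pos
  have hAc1 : (1 : ℝ) ≤ A.card := by exact_mod_cast hA.card_pos
  set J := Nat.log 2 m with hJdef
  have hJ : 1 ≤ J := log_pos_of hm
  have hpow : 2 ^ J ≤ m := Nat.pow_log_le_self 2 (by omega)
  have hκJ : κ ^ J = K := qq_pow hm hK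
  have hEm : (0 : ℝ) < En A m := by exact_mod_cast En_pos hA m
  have h0 : (A.card : ℝ) ^ (2 * m) ≤ K * A.card * En A m := by
    have e : 2 * m = (2 * m - 1) + 1 := by omega
    calc (A.card : ℝ) ^ (2 * m) = (A.card : ℝ) ^ (2 * m - 1) * A.card := by
          conv_lhs => rw [e]
          rw [pow_succ]
      _ ≤ K * En A m * A.card := mul_le_mul_of_nonneg_right h hAc.le
      _ = _ := by ring
  -- for every `n ≤ m`
  have hn : ∀ n ≤ m, (A.card : ℝ) ^ (2 * n) ≤ K * A.card * En A n := by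
    intro n hnm
    have h1 := normalised_mono A n m hnm
    have h2 : (En A m : ℝ) * (A.card : ℝ) ^ (2 * n) ≤ En A m * (K * A.card * En A n) := by
      refine h1.trans ?_
      calc (A.card : ℝ) ^ (2 * m) * En A n ≤ (K * A.card * En A m) * En A n :=
            mul_le_mul_of_nonneg_right h0 (Nat.cast_nonneg _)
        _ = _ := by ring
    exact le_of_mul_le_mul_left h2 hEm
  have h1 : (A.card : ℝ) ^ (2 * 2 ^ J) ≤ κ ^ J * A.card * En A (2 ^ J) := by
    rw [hκJ]
    exact hn _ hpow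
  obtain ⟨j, hj, hslow⟩ := slow_en A J hJ κ hκ h1 hA
  obtain ⟨n, hn1⟩ : ∃ n, 2 ^ j = n + 1 :=
    ⟨2 ^ j - 1, by have := Nat.one_le_two_pow (n := j); omega⟩
  have hjm : n + 1 ≤ m := by
    rw [← hn1]
    exact (Nat.pow_le_pow_right (by norm_num) hj.le).trans hpow
  rw [hn1] at hslow
  obtain ⟨B, hB, hBB, hBc, hmass⟩ := core A hA n κ hκ hslow
  have hEn : (0 : ℝ) < En A (n + 1) := by exact_mod_cast En_pos hA (n + 1)
  have hBsize : (B.card : ℝ) ≤ 64 * κ * K * A.card := by
    have h2 : (B.card : ℝ) * En A (n + 1) ≤ (64 * κ * K * A.card) * En A (n + 1) := by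
      refine hBc.trans ?_
      calc 64 * κ * (A.card : ℝ) ^ (2 * (n + 1)) ≤ 64 * κ * (K * A.card * En A (n + 1)) :=
            mul_le_mul_of_nonneg_left (hn _ hjm) (by positivity)
        _ = _ := by ring
    exact le_of_mul_le_mul_right h2 hEn
  have hl2 : 0 < Real.log 2 := Real.log_pos (by norm_num)
  have hlk : 0 ≤ Real.log κ := Real.log_nonneg hκ
  have hlog2κ : Real.log (2 * κ) = Real.log 2 + Real.log κ :=
    Real.log_mul (by norm_num) hκ0.ne'
  have hlogK : Real.log (2 * (2 ^ 22 * (2 ^ 33 * κ ^ 8) ^ 10) ^ 2) ≤ 1410 * L := by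
    rw [Real.log_mul (by norm_num) (by positivity), Real.log_pow,
      Real.log_mul (by norm_num) (by positivity), Real.log_pow, Real.log_pow,
      Real.log_mul (by norm_num) (by positivity), Real.log_pow, Real.log_pow]
    push_cast
    linarith
  obtain ⟨c1, c2⟩ := engine (B := 1410) (L := L) (by norm_num) hL B hB hBB hlogK
  have e : (300 : ℝ) * 1410 * L = 423000 * L := by ring
  rw [e] at c1 c2
  have hexp : ∀ N : ℕ, (2 * κ) ^ N ≤ Real.exp (2 * N * L) := by
    intro N
    have h2 : (2 * κ) ^ N = Real.exp (N * Real.log (2 * κ)) := by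
      rw [Real.exp_nat_mul, Real.exp_log (by linarith)]
    rw [h2]
    apply Real.exp_le_exp.2
    have : (N : ℝ) * Real.log (2 * κ) ≤ N * (2 * L) :=
      mul_le_mul_of_nonneg_left hlogκ (Nat.cast_nonneg _)
    linarith
  have hR : 2 ^ 47 * κ ^ 11 ≤ Real.exp (94 * L) := by
    calc 2 ^ 47 * κ ^ 11 ≤ 2 ^ 47 * κ ^ 47 :=
          mul_le_mul_of_nonneg_left (pow_le_pow_right₀ hκ (by norm_num)) (by norm_num)
      _ = (2 * κ) ^ 47 := by ring
      _ ≤ _ := by
          refine (hexp 47).trans (le_of_eq ?_)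
          norm_num
  have h64 : 64 * κ ≤ Real.exp (6 * L) := by
    have h32 : (32 : ℝ) ≤ Real.exp (4 * L) := by
      have h2 : (2.7 : ℝ) ≤ Real.exp 1 := by
        have := Real.exp_one_gt_d9
        linarith
      have h3 : Real.exp 4 = Real.exp 1 ^ 4 := by
        rw [← Real.exp_nat_mul]; norm_num
      calc (32 : ℝ) ≤ 2.7 ^ 4 := by norm_num
        _ ≤ Real.exp 1 ^ 4 := pow_le_pow_left₀ (by norm_num) h2 4
        _ = Real.exp 4 := h3.symm
        _ ≤ _ := Real.exp_le_exp.2 (by linarith)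
    have h5 : 2 * κ ≤ Real.exp (2 * L) := by
      have := hexp 1
      norm_num at this
      exact this
    calc 64 * κ = 32 * (2 * κ) := by ring
      _ ≤ Real.exp (4 * L) * Real.exp (2 * L) :=
          mul_le_mul h32 h5 (by positivity) (Real.exp_pos _).le
      _ = Real.exp (6 * L) := by rw [← Real.exp_add]; congr 1; ring
  have hcM : 0 ≤ cM 1410 := cM_nonneg (by norm_num)
  have hnum := num_pos (cM 1410) L
  constructor
  · refine (dense_of_cov hA hnum.le (by positivity) n c1 hmass).mono le_rfl ?_ ?_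
    · refine hBsize.trans (mul_le_mul_of_nonneg_right ?_ hAc.le)
      calc 64 * κ * K ≤ Real.exp (6 * L) * K := mul_le_mul_of_nonneg_right h64 (by linarith)
        _ = _ := by ring
    · exact (mul_le_mul_of_nonneg_right hR hnum.le).trans (exp_mul_num (by norm_num) hL)
  · have h1V : 1 ≤ 64 * κ * K := by nlinarith
    refine (dense_of_cov hA (by positivity) (by positivity) n
      (c2 A.card (64 * κ * K) hA.card_pos h1V hBsize) hmass).mono le_rfl le_rfl ?_
    calc 2 ^ 47 * κ ^ 11 * (64 * κ * K * num (cM 1410) L)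
        ≤ Real.exp (94 * L) * (Real.exp (6 * L) * K * num (cM 1410) L) := by
          apply mul_le_mul hR _ (by positivity) (Real.exp_pos _).le
          gcongr
      _ = K * (Real.exp (100 * L) * num (cM 1410) L) := by
          have e2 : Real.exp (100 * L) = Real.exp (94 * L) * Real.exp (6 * L) := by
            rw [← Real.exp_add]; congr 1; ring
          rw [e2]; ring
      _ ≤ K * num (100 + cM 1410) L :=
          mul_le_mul_of_nonneg_left (exp_mul_num (by norm_num) hL) (by linarith)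

end Pool.Agent.P8H91.GR
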